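import Pool.Agent.Lib.Pecede9.Count

/-!
# Cards
-/

set_option autoImplicit false
set_option linter.unusedSectionVars false

open Finset

namespace Pool.Agent.Lib.Pecede9

variable {V : Type} [Fintype V] [DecidableEq V]

/-- isomorphic cards -/
def CI (G : SimpleGraph V) (v : V) (H : SimpleGraph V) (w : V) : Prop :=
  Nonempty (G.induce ({v}ᶜ : Set V) ≃g H.induce ({w}ᶜ : Set V))

variable {G H K : SimpleGraph V} {v w z : V}

theorem CI.refl (G : SimpleGraph V) (v : V) : CI G v G v := ⟨SimpleGraph.Iso.refl⟩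

theorem CI.symm (h : CI G v H w) : CI H w G v := by
  obtain ⟨φ⟩ := h
  exact ⟨φ.symm⟩

theorem CI.trans (h : CI G v H w) (h' : CI H w K z) : CI G v K z := by
  obtain ⟨φ⟩ := h
  obtain ⟨ψ⟩ := h'
  exact ⟨φ.trans ψ⟩

/-- an isomorphism of cards extends to a bijection of the vertex sets -/
theorem CI.exists_equiv (h : CI G v H w) :
    ∃ π : V ≃ V, π v = w ∧ ∀ x y, x ≠ v → y ≠ v → (G.Adj x y ↔ H.Adj (π x) (π y)) := by
  obtain ⟨φ⟩ := h
  let ψ : {x : V // x ≠ v} ≃ {x : V // x ≠ w} :=
    { toFun := fun x => ⟨(φ ⟨x.1, x.2⟩).1, (φ ⟨x.1, x.2⟩).2⟩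
      invFun := fun x => ⟨(φ.symm ⟨x.1, x.2⟩).1, (φ.symm ⟨x.1, x.2⟩).2⟩
      left_inv := fun x => Subtype.ext (congrArg Subtype.val (φ.symm_apply_apply ⟨x.1, x.2⟩))
      right_inv := fun x => Subtype.ext (congrArg Subtype.val (φ.apply_symm_apply ⟨x.1, x.2⟩)) }
  let π : V ≃ V := (Equiv.optionSubtypeNe v).symm.trans
    ((Equiv.optionCongr ψ).trans (Equiv.optionSubtypeNe w))
  have hπ : ∀ x (hx : x ≠ v), π x = (φ ⟨x, hx⟩).1 := by
    intro x hx
    simp only [π, Equiv.trans_apply]
    rw [Equiv.optionSubtypeNe_symm_of_ne hx]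
    simp only [Equiv.optionCongr_apply, Option.map_some, Equiv.optionSubtypeNe_some]
    rfl
  refine ⟨π, ?_, ?_⟩
  · simp [π]
  · intro x y hx hy
    rw [hπ x hx, hπ y hy]
    have := φ.map_adj_iff (v := ⟨x, hx⟩) (w := ⟨y, hy⟩)
    simp only [SimpleGraph.comap_adj, Function.Embedding.subtype_apply] at this
    exact this.symm

theorem CI.of_equiv (π : V ≃ V) (h0 : π v = w)
    (h : ∀ x y, x ≠ v → y ≠ v → (G.Adj x y ↔ H.Adj (π x) (π y))) : CI G v H w := by
  have hne : ∀ x, x ≠ v → π x ≠ w := fun x hx hc => hx (π.injective (hc.trans h0.symm))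
  have hne' : ∀ y, y ≠ w → π.symm y ≠ v := fun y hy hc => hy (by rw [← h0, ← hc]; simp)
  refine ⟨⟨⟨fun x => ⟨π x.1, hne x.1 x.2⟩, fun x => ⟨π.symm x.1, hne' x.1 x.2⟩, ?_, ?_⟩, ?_⟩⟩
  · intro x; simp
  · intro x; simp
  · intro x y
    simp only [SimpleGraph.comap_adj, Function.Embedding.subtype_apply, Equiv.coe_fn_mk]
    exact (h x.1 y.1 x.2 y.2).symm

theorem CI.of_agree (h : Agree v G H) : CI G v H v :=
  CI.of_equiv (Equiv.refl V) rfl h

theorem CI.of_iso (φ : G ≃g H) (v : V) : CI G v H (φ v) :=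
  CI.of_equiv φ.toEquiv rfl fun x y _ _ => φ.map_adj_iff.symm

theorem CI.exists_copy (h : CI G v H w) :
    ∃ L : SimpleGraph V, Nonempty (L ≃g H) ∧ Agree v G L := by
  obtain ⟨π, _, h2⟩ := h.exists_equiv
  refine ⟨H.comap π, ⟨SimpleGraph.Iso.comap π H⟩, fun x y hx hy => ?_⟩
  rw [SimpleGraph.comap_adj]
  exact h2 x y hx hy

/-- a function of the degrees of the card, summed up -/
noncomputable def CS (G : SimpleGraph V) (v : V) (f : ℤ → ℤ) : ℤ :=
  ∑ x ∈ univ.erase v, f (dg G x - a G x v)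

theorem card_deg {π : V ≃ V} (h0 : π v = w)
    (h : ∀ x y, x ≠ v → y ≠ v → (G.Adj x y ↔ H.Adj (π x) (π y))) {x : V} (hx : x ≠ v) :
    dg G x - a G x v = dg H (π x) - a H (π x) w := by
  have e1 : ∀ (K : SimpleGraph V) (x z : V), dg K x - a K x z = ∑ y ∈ univ.erase z, a K x y := by
    intro K x z
    unfold dg
    rw [← sum_erase_add _ _ (mem_univ z)]; ring
  rw [e1, e1]
  refine sum_bij (fun y _ => π y) ?_ ?_ ?_ ?_
  · intro y hy
    rw [mem_erase] at hy ⊢
    exact ⟨fun hc => hy.1 (π.injective (hc.trans h0.symm)), mem_univ _⟩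
  · intro y _ y' _ h; exact π.injective h
  · intro y hy
    rw [mem_erase] at hy
    refine ⟨π.symm y, ?_, by simp⟩
    rw [mem_erase]
    exact ⟨fun hc => hy.1 (by rw [← h0, ← hc]; simp), mem_univ _⟩
  · intro y hy
    have h1 := h x y hx (ne_of_mem_erase hy)
    by_cases h2 : G.Adj x y
    · rw [a_one h2, a_one (h1.1 h2)]
    · rw [a_zero h2, a_zero fun h3 => h2 (h1.2 h3)]

theorem CI.cs (h : CI G v H w) (f : ℤ → ℤ) : CS G v f = CS H w f := by
  obtain ⟨π, h0, h1⟩ := h.exists_equiv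
  unfold CS
  refine sum_bij (fun y _ => π y) ?_ ?_ ?_ ?_
  · intro y hy
    rw [mem_erase] at hy ⊢
    exact ⟨fun hc => hy.1 (π.injective (hc.trans h0.symm)), mem_univ _⟩
  · intro y _ y' _ h; exact π.injective h
  · intro y hy
    rw [mem_erase] at hy
    refine ⟨π.symm y, ?_, by simp⟩
    rw [mem_erase]
    exact ⟨fun hc => hy.1 (by rw [← h0, ← hc]; simp), mem_univ _⟩
  · intro y hy
    rw [card_deg h0 h1 (ne_of_mem_erase hy)]

/-- sum of all degrees -/
noncomputable def E (G : SimpleGraph V) : ℤ := ∑ x, dg G x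

theorem a_self (G : SimpleGraph V) (v : V) : a G v v = 0 := a_zero (G.loopless.irrefl v)

theorem CS_id (G : SimpleGraph V) (v : V) : CS G v (fun x => x) = E G - 2 * dg G v := by
  unfold CS E
  have h1 : ∑ x ∈ univ.erase v, dg G x + dg G v = ∑ x, dg G x := sum_erase_add _ _ (mem_univ v)
  have : ∑ x ∈ univ.erase v, a G x v = dg G v := by
    unfold dg
    rw [← sum_erase_add _ _ (mem_univ v), a_self, add_zero]
    exact sum_congr rfl fun x _ => a_symm G x v
  simp only [sum_sub_distrib, this]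
  linarith

theorem CI.deg (h : CI G v H w) : E G - 2 * dg G v = E H - 2 * dg H w := by
  rw [← CS_id, ← CS_id]; exact h.cs _

/-- same cards -/
def SC (G H : SimpleGraph V) : Prop :=
  (∀ v, ∃ w, CI G v H w) ∧ ∀ w, ∃ v, CI G v H w

theorem SC.symm (h : SC G H) : SC H G := by
  refine ⟨fun w => ?_, fun v => ?_⟩
  · obtain ⟨v, hv⟩ := h.2 w
    exact ⟨v, hv.symm⟩
  · obtain ⟨w, hw⟩ := h.1 v
    exact ⟨w, hw.symm⟩

theorem dg_nonneg (G : SimpleGraph V) (x : V) : 0 ≤ dg G x :=
  sum_nonneg fun y _ => by rcases a_01 G x y with h | h <;> rw [h] <;> norm_num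

theorem a_le_dg (G : SimpleGraph V) (x y : V) : a G x y ≤ dg G x :=
  single_le_sum (f := fun y => a G x y)
    (fun y _ => by rcases a_01 G x y with h | h <;> rw [h] <;> norm_num) (mem_univ y)

/-- the number of edges is determined by the set of cards -/
theorem SC.not_lt (h : SC G H) (hn : 4 ≤ Fintype.card V) : ¬ E G < E H := by
  intro hlt
  have : Nonempty V := Fintype.card_pos_iff.1 (by omega)
  have up : ∀ v w, CI G v H w → dg G v < dg H w := by
    intro v w hc
    have := hc.deg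
    linarith
  -- an isolated vertex of `G`
  obtain ⟨z, -, hz⟩ := exists_min_image univ (fun x => dg G x) univ_nonempty
  have hz0 : dg G z = 0 := by
    by_contra hne
    have hpos : 0 < dg G z := lt_of_le_of_ne (dg_nonneg G z) (Ne.symm hne)
    have : ∃ v, a G z v = 1 := by
      by_contra hc
      push Not at hc
      apply hne
      unfold dg
      exact sum_eq_zero fun y _ => (a_01 G z y).resolve_right (hc y)
    obtain ⟨v, hv⟩ := this
    have hzv : z ≠ v := by rintro rfl; rw [a_self] at hv; norm_num at hv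
    obtain ⟨w, hw⟩ := h.1 v
    obtain ⟨π, h0, h1⟩ := hw.exists_equiv
    have h2 := card_deg h0 h1 hzv
    rw [hv] at h2
    have h3 : dg H (π z) ≤ dg G z := by
      rcases a_01 H (π z) w with h4 | h4 <;> rw [h4] at h2 <;> linarith
    obtain ⟨v', hv'⟩ := h.2 (π z)
    have h4 := up _ _ hv'
    have h5 := hz v' (mem_univ _)
    linarith
  have hzi : ∀ v, a G z v = 0 := by
    intro v
    have h1 := a_le_dg G z v
    rcases a_01 G z v with h2 | h2
    · exact h2
    · rw [h2, hz0] at h1; norm_num at h1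
  -- a universal vertex of `H`
  obtain ⟨s, -, hs⟩ := exists_max_image univ (fun x => dg H x) univ_nonempty
  have hsu : ∀ w, w ≠ s → a H s w = 1 := by
    intro w hws
    by_contra hne
    have h0 : a H s w = 0 := (a_01 H s w).resolve_right hne
    obtain ⟨v, hv⟩ := h.2 w
    obtain ⟨π, h1, h2⟩ := hv.exists_equiv
    have hx : π.symm s ≠ v := by
      intro hc
      apply hws
      rw [← h1, ← hc]; simp
    have h3 := card_deg h1 h2 hx
    rw [Equiv.apply_symm_apply, h0] at h3
    obtain ⟨w', hw'⟩ := h.1 (π.symm s)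
    have h4 := up _ _ hw'
    have h5 := hs w' (mem_univ _)
    rcases a_01 G (π.symm s) v with h6 | h6 <;> rw [h6] at h3 <;> linarith
  have hsd : dg H s = (Fintype.card V : ℤ) - 1 := by
    unfold dg
    rw [← sum_erase_add _ _ (mem_univ s), a_self, add_zero,
      sum_congr rfl (fun w hw => hsu w (ne_of_mem_erase hw))]
    simp only [sum_const, smul_eq_mul, mul_one, card_erase_of_mem (mem_univ s), card_univ,
      nsmul_eq_mul]
    rw [Nat.cast_sub (by omega)]; simp
  have hnz : (4 : ℤ) ≤ Fintype.card V := by exact_mod_cast hn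
  have key : ∀ v w, v ≠ z → CI G v H w → w = s := by
    intro v w hv hc
    by_contra hws
    obtain ⟨π, h0, h1⟩ := hc.exists_equiv
    have h2 := card_deg h0 h1 (Ne.symm hv)
    rw [hz0, hzi] at h2
    have hπ : π z ≠ w := fun hh => hv (π.injective (hh.trans h0.symm)).symm
    by_cases hps : π z = s
    · rw [hps, hsd, hsu w hws] at h2
      linarith
    · have h3 : a H (π z) w + a H (π z) s ≤ dg H (π z) := by
        unfold dg
        rw [← sum_erase_add _ _ (mem_univ w), add_comm]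
        have : a H (π z) s ≤ ∑ x ∈ univ.erase w, a H (π z) x :=
          single_le_sum (f := fun y => a H (π z) y)
            (fun y _ => by rcases a_01 H (π z) y with h | h <;> rw [h] <;> norm_num)
            (mem_erase.2 ⟨Ne.symm hws, mem_univ _⟩)
        linarith
      rw [a_symm H (π z) s, hsu (π z) hps] at h3
      linarith
  have key2 : ∀ v w, w ≠ s → CI G v H w → v = z := by
    intro v w hw hc
    by_contra hv
    exact hw (key v w hv hc)
  set J : ℤ := E H - E G with hJ
  have d1 : ∀ v, v ≠ z → 2 * dg G v = 2 * ((Fintype.card V : ℤ) - 1) - J := by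
    intro v hv
    obtain ⟨w, hw⟩ := h.1 v
    have h1 := key v w hv hw
    have h2 := hw.deg
    rw [h1, hsd] at h2
    linarith
  have d2 : ∀ w, w ≠ s → 2 * dg H w = J := by
    intro w hw
    obtain ⟨v, hv⟩ := h.2 w
    have h1 := key2 v w hw hv
    have h2 := hv.deg
    rw [h1, hz0] at h2
    linarith
  have hJ2 : J = 2 := by
    obtain ⟨v, hv⟩ : ∃ v, v ≠ z := by
      by_contra hc
      push Not at hc
      have : Fintype.card V ≤ 1 := Fintype.card_le_one_iff.2 fun x y => by rw [hc x, hc y]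
      omega
    obtain ⟨w, hw⟩ := h.1 v
    have h1 := key v w hv hw
    obtain ⟨π, h0, h2⟩ := hw.exists_equiv
    have h3 := card_deg h0 h2 (Ne.symm hv)
    have hπ : π z ≠ w := fun hh => hv (π.injective (hh.trans h0.symm)).symm
    rw [hz0, hzi, h1, a_symm H, hsu _ (h1 ▸ hπ)] at h3
    have h4 := d2 _ (h1 ▸ hπ)
    linarith
  have hEH : 2 * E H = 2 * ((Fintype.card V : ℤ) - 1) + ((Fintype.card V : ℤ) - 1) * J := by
    unfold E
    rw [← sum_erase_add _ _ (mem_univ s), mul_add, mul_sum,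
      sum_congr rfl (fun w hw => d2 w (ne_of_mem_erase hw)), hsd, sum_const,
      card_erase_of_mem (mem_univ s), card_univ, nsmul_eq_mul, Nat.cast_sub (by omega)]
    push_cast
    ring
  have hEG : 2 * E G = ((Fintype.card V : ℤ) - 1) * (2 * ((Fintype.card V : ℤ) - 1) - J) := by
    unfold E
    rw [← sum_erase_add _ _ (mem_univ z), mul_add, mul_sum,
      sum_congr rfl (fun w hw => d1 w (ne_of_mem_erase hw)), hz0, sum_const,
      card_erase_of_mem (mem_univ z), card_univ, nsmul_eq_mul, Nat.cast_sub (by omega)]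
    push_cast
    ring
  rw [hJ2] at hEH hEG
  have h9 : E H - E G = 2 := hJ2
  nlinarith

theorem SC.edges (h : SC G H) (hn : 4 ≤ Fintype.card V) : E G = E H :=
  le_antisymm (_root_.not_lt.1 (h.symm.not_lt hn)) (_root_.not_lt.1 (h.not_lt hn))

theorem SC.deg (h : SC G H) (hn : 4 ≤ Fintype.card V) (hc : CI G v H w) : dg G v = dg H w := by
  have h1 := h.edges hn
  have h2 := hc.deg
  linarith

end Pool.Agent.Lib.Pecede9
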