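import Pool.Agent.Lib.Pecede9.Graph

/-!
# Double counting of labelled copies
-/

set_option autoImplicit false
set_option linter.unusedSectionVars false

open Finset

namespace Pool.Agent.Lib.Pecede9

variable {V : Type} [Fintype V] [DecidableEq V]

/-- transport of an extension to another labelled copy -/
theorem transport {G H K : SimpleGraph V} (φ : K ≃g G)
    (h : ∀ v, ∃ L : SimpleGraph V, Nonempty (L ≃g H) ∧ Agree v G L) (v : V) :
    ∃ L : SimpleGraph V, Nonempty (L ≃g H) ∧ Agree v K L := by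
  obtain ⟨L, ⟨ψ⟩, hL⟩ := h (φ v)
  refine ⟨L.comap φ, ⟨(SimpleGraph.Iso.comap φ.toEquiv L).trans ψ⟩, ?_⟩
  intro x y hx hy
  rw [SimpleGraph.comap_adj, ← hL (φ x) (φ y) (fun h => hx (φ.injective h))
    (fun h => hy (φ.injective h))]
  exact φ.map_adj_iff.symm

theorem mult_eq {G H : SimpleGraph V} {d t l q : ℤ} [Nonempty V]
    (P : SimpleGraph V → V → Prop)
    (hP1 : ∀ K L : SimpleGraph V, ∀ φ : K ≃g L, ∀ v, P K v ↔ P L (φ v))
    (hP2 : ∀ v, ∀ K L : SimpleGraph V, Agree v K L → (P K v ↔ P L v))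
    (hGH : ¬ Nonempty (G ≃g H))
    (hgood : ∀ K : SimpleGraph V, (Nonempty (K ≃g G) ∨ Nonempty (K ≃g H)) → Good d t l q K)
    (h1 : ∀ v, ∃ L : SimpleGraph V, Nonempty (L ≃g H) ∧ Agree v G L)
    (h2 : ∀ v, ∃ L : SimpleGraph V, Nonempty (L ≃g G) ∧ Agree v H L) :
    Set.ncard {v | P G v} = Set.ncard {v | P H v} := by
  classical
  haveI : Fintype (SimpleGraph V) := Fintype.ofFinite _
  set S : Set (SimpleGraph V) := {K | Nonempty (K ≃g G) ∨ Nonempty (K ≃g H)} with hS
  have e1 : ∀ K : SimpleGraph V, Nonempty (K ≃g G) → ∀ v,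
      ∃ L : SimpleGraph V, Nonempty (L ≃g H) ∧ Agree v K L :=
    fun K ⟨φ⟩ v => transport φ h1 v
  have e2 : ∀ K : SimpleGraph V, Nonempty (K ≃g H) → ∀ v,
      ∃ L : SimpleGraph V, Nonempty (L ≃g G) ∧ Agree v K L :=
    fun K ⟨φ⟩ v => transport φ h2 v
  have ne : ∀ K L : SimpleGraph V, Nonempty (K ≃g G) → Nonempty (L ≃g H) → K ≠ L := by
    rintro K L ⟨φ⟩ ⟨ψ⟩ rfl
    exact hGH ⟨φ.symm.trans ψ⟩
  have hex : ∀ K ∈ S, ∀ v, ∃ L ∈ S, L ≠ K ∧ Agree v K L := by
    intro K hK v
    rcases hK with hK | hK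
    · obtain ⟨L, hL, hv⟩ := e1 K hK v
      exact ⟨L, Or.inr hL, (ne K L hK hL).symm, hv⟩
    · obtain ⟨L, hL, hv⟩ := e2 K hK v
      exact ⟨L, Or.inl hL, ne L K hL hK, hv⟩
  have uni : ∀ K ∈ S, ∀ L ∈ S, ∀ M ∈ S, ∀ v, L ≠ K → M ≠ K → Agree v K L → Agree v K M → L = M :=
    fun K hK L hL M hM v => unique_ext hgood hex hK hL hM
  -- the two sets of labelled copies
  set X : Finset (SimpleGraph V) := univ.filter fun K => Nonempty (K ≃g G) with hX
  set Y : Finset (SimpleGraph V) := univ.filter fun K => Nonempty (K ≃g H) with hY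
  -- the bijection for a fixed vertex
  have bij : ∀ (Q : SimpleGraph V → V → Prop), (∀ v, ∀ K L : SimpleGraph V, Agree v K L →
      (Q K v ↔ Q L v)) → ∀ v, (X.filter fun K => Q K v).card = (Y.filter fun K => Q K v).card := by
    intro Q hQ v
    choose! f hf1 hf2 using fun K (hK : Nonempty (K ≃g G)) => e1 K hK v
    refine card_bij (fun K _ => f K) ?_ ?_ ?_
    · intro K hK
      simp only [hX, mem_filter, mem_univ, true_and] at hK
      simp only [hY, mem_filter, mem_univ, true_and]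
      exact ⟨hf1 K hK.1, (hQ v K (f K) (hf2 K hK.1)).1 hK.2⟩
    · intro K hK L hL hKL
      simp only [hX, mem_filter, mem_univ, true_and] at hK hL
      exact uni (f K) (Or.inr (hf1 K hK.1)) K (Or.inl hK.1) L (Or.inl hL.1) v
        (ne _ _ hK.1 (hf1 K hK.1)) (ne _ _ hL.1 (hf1 K hK.1)) (hf2 K hK.1).symm
        (hKL ▸ (hf2 L hL.1).symm)
    · intro L hL
      simp only [hY, mem_filter, mem_univ, true_and] at hL
      obtain ⟨K, hK, hv⟩ := e2 L hL.1 v
      refine ⟨K, ?_, ?_⟩
      · simp only [hX, mem_filter, mem_univ, true_and]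
        exact ⟨hK, (hQ v L K hv).1 hL.2⟩
      · exact uni K (Or.inl hK) (f K) (Or.inr (hf1 K hK)) L (Or.inr hL.1) v
          (ne _ _ hK (hf1 K hK)).symm (ne _ _ hK hL.1).symm (hf2 K hK) hv.symm
  have hXY : X.card = Y.card := by
    obtain ⟨v⟩ := ‹Nonempty V›
    have := bij (fun _ _ => True) (fun _ _ _ _ => Iff.rfl) v
    simpa using this
  have cnt : ∀ (G0 : SimpleGraph V) (Z : Finset (SimpleGraph V)), (∀ K ∈ Z, Nonempty (K ≃g G0)) →
      ∑ v : V, (Z.filter fun K => P K v).card = Z.card * Set.ncard {v | P G0 v} := by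
    intro G0 Z hZ
    have h3 : ∀ K ∈ Z, (univ.filter fun v => P K v).card = Set.ncard {v | P G0 v} := by
      intro K hK
      obtain ⟨φ⟩ := hZ K hK
      rw [← Set.ncard_coe_finset]
      refine Set.ncard_congr (fun v _ => φ v) ?_ ?_ ?_
      · intro v hv
        simp only [coe_filter, mem_univ, true_and, Set.mem_ofPred_eq] at hv
        exact (hP1 K G0 φ v).1 hv
      · intro v w _ _ h
        exact φ.injective h
      · intro w hw
        refine ⟨φ.symm w, ?_, by simp⟩
        simp only [coe_filter, mem_univ, true_and, Set.mem_ofPred_eq]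
        rw [hP1 K G0 φ]
        simpa using hw
    calc ∑ v : V, (Z.filter fun K => P K v).card
        = ∑ v : V, ∑ K ∈ Z, if P K v then 1 else 0 := by
          refine sum_congr rfl fun v _ => ?_
          rw [card_filter]
      _ = ∑ K ∈ Z, ∑ v : V, if P K v then 1 else 0 := sum_comm
      _ = ∑ K ∈ Z, (univ.filter fun v => P K v).card := by
          refine sum_congr rfl fun K _ => ?_
          rw [card_filter]
      _ = ∑ K ∈ Z, Set.ncard {v | P G0 v} := sum_congr rfl h3
      _ = Z.card * Set.ncard {v | P G0 v} := by rw [sum_const, smul_eq_mul]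
  have c1 := cnt G X (fun K hK => by simpa [hX] using hK)
  have c2 := cnt H Y (fun K hK => by simpa [hY] using hK)
  have c3 : ∑ v : V, (X.filter fun K => P K v).card = ∑ v : V, (Y.filter fun K => P K v).card :=
    sum_congr rfl fun v _ => bij P hP2 v
  rw [c1, c2, hXY] at c3
  have hpos : 0 < Y.card := by
    rw [card_pos]
    exact ⟨H, by simp only [hY, mem_filter, mem_univ, true_and]; exact ⟨SimpleGraph.Iso.refl⟩⟩
  exact Nat.eq_of_mul_eq_mul_left hpos c3

end Pool.Agent.Lib.Pecede9
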