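import Mathlib

/-!
# Families of near regular equitable graphs closed under switching at a vertex

A pair `(A, u)` stands for a graph (adjacency matrix `A` with integer entries) and the indicator `u`
of its vertices of the larger degree.
-/

set_option autoImplicit false
set_option linter.unusedSectionVars false

open Finset

namespace Pool.Agent.Lib.Pecede9

variable {V : Type} [Fintype V] [DecidableEq V]

/-- the operator of a matrix -/
def op (A : V → V → ℤ) (f : V → ℤ) (x : V) : ℤ := ∑ y, A x y * f y

/-- scalar product -/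
def dot (f g : V → ℤ) : ℤ := ∑ x, f x * g x

theorem dot_comm (f g : V → ℤ) : dot f g = dot g f := by
  unfold dot; exact sum_congr rfl fun x _ => mul_comm _ _

theorem dot_op (A : V → V → ℤ) (hA : ∀ x y, A x y = A y x) (f g : V → ℤ) :
    dot f (op A g) = dot (op A f) g := by
  unfold dot op
  simp only [mul_sum, sum_mul]
  rw [sum_comm]
  refine sum_congr rfl fun y _ => sum_congr rfl fun x _ => ?_
  rw [hA x y]; ring

/-- switching at `v` -/
def sw (v : V) (g : V → ℤ) (A : V → V → ℤ) : V → V → ℤ := fun x y =>
  A x y - (if x = v then g y else 0) - (if y = v then g x else 0)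

theorem op_sw (v : V) (g : V → ℤ) (A : V → V → ℤ) (f : V → ℤ) (x : V) :
    op (sw v g A) f x = op A f x - (if x = v then dot g f else 0) - g x * f v := by
  unfold op sw dot
  simp only [sub_mul, sum_sub_distrib]
  congr 1
  · congr 1
    split_ifs <;> simp
  · simp

theorem sw_sw (v : V) (g : V → ℤ) (A : V → V → ℤ) : sw v (-g) (sw v g A) = A := by
  funext x y
  unfold sw
  simp only [Pi.neg_apply]
  split_ifs <;> ring

/-- `g` is the switching vector at `v` -/
structure SW (l : ℤ) (A : V → V → ℤ) (u : V → ℤ) (v : V) (g : V → ℤ) (b : ℤ) : Prop where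
  gv : g v = 0
  tri : ∀ x, g x = 0 ∨ (g x = 1 ∧ u x = 1 ∧ A v x = 1) ∨ (g x = -1 ∧ u x = 0 ∧ A v x = 0)
  bpos : 0 < b
  gu : ∑ x, g x * u x = b
  sum0 : ∑ x, g x = 0
  eig : ∀ x, op A g x = (l - u v) * g x + if x = v then b else 0

/-- a closed family -/
structure Fam (l : ℤ) (S : Set ((V → V → ℤ) × (V → ℤ))) : Prop where
  symm : ∀ p ∈ S, ∀ x y, p.1 x y = p.1 y x
  u01 : ∀ p ∈ S, ∀ x, p.2 x = 0 ∨ p.2 x = 1
  ex : ∀ p ∈ S, ∀ v, ∃ g b, SW l p.1 p.2 v g b ∧ (sw v g p.1, p.2 - g) ∈ S

variable {l : ℤ} {A : V → V → ℤ} {u : V → ℤ} {v w : V} {g g' h : V → ℤ} {b b' : ℤ}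

theorem SW.dot_self (s : SW l A u v g b) : dot g g = 2 * b := by
  have h1 : dot g g = ∑ x, (2 * (g x * u x) - g x) := by
    unfold dot
    refine sum_congr rfl fun x _ => ?_
    rcases s.tri x with h | ⟨h, h', _⟩ | ⟨h, h', _⟩
    · rw [h]; simp
    · rw [h, h']; norm_num
    · rw [h, h']; norm_num
  rw [h1, sum_sub_distrib, ← mul_sum, s.gu, s.sum0]; ring

/-- the way back -/
theorem SW.back (s : SW l A u v g b) :
    SW l (sw v g A) (u - g) v (-g) b where
  gv := by simp [s.gv]
  tri x := by
    have hx : sw v g A v x = A v x - g x := by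
      unfold sw
      rw [if_pos rfl]
      split_ifs with h
      · rw [h, s.gv]; ring
      · ring
    rw [hx]
    simp only [Pi.neg_apply, Pi.sub_apply]
    rcases s.tri x with h | ⟨h, h', h''⟩ | ⟨h, h', h''⟩
    · left; rw [h]; rfl
    · right; right; rw [h, h', h'']; norm_num
    · right; left; rw [h, h', h'']; norm_num
  bpos := s.bpos
  gu := by
    have : ∀ x, (-g) x * (u - g) x = g x * g x - g x * u x := fun x => by
      simp only [Pi.neg_apply, Pi.sub_apply]; ring
    rw [sum_congr rfl fun x _ => this x, sum_sub_distrib, s.gu]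
    have := s.dot_self
    unfold dot at this
    rw [this]; ring
  sum0 := by simp [s.sum0]
  eig x := by
    have h1 : op A (-g) x = - op A g x := by
      unfold op; simp
    have h2 : dot g (-g) = - (2 * b) := by
      rw [← s.dot_self]; unfold dot; simp
    rw [op_sw, h1, h2, s.eig]
    simp only [Pi.neg_apply, Pi.sub_apply, s.gv]
    split_ifs <;> ring

/-- comparing two switching vectors -/
theorem SW.cross (s : SW l A u v g b) (s' : SW l A u w g' b') (hA : ∀ x y, A x y = A y x) :
    (u w - u v) * dot g g' = b' * g w - b * g' v := by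
  have h1 : dot g' (op A g) = (l - u v) * dot g g' + b * g' v := by
    unfold dot
    simp only [s.eig, mul_add, sum_add_distrib, mul_ite, mul_zero, sum_ite_eq', mem_univ, if_true,
      mul_sum]
    congr 1
    · exact sum_congr rfl fun x _ => by ring
    · ring
  have h2 : dot g (op A g') = (l - u w) * dot g g' + b' * g w := by
    unfold dot
    simp only [s'.eig, mul_add, sum_add_distrib, mul_ite, mul_zero, sum_ite_eq', mem_univ, if_true,
      mul_sum]
    congr 1
    · exact sum_congr rfl fun x _ => by ring
    · ring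
  have h3 : dot g' (op A g) = dot g (op A g') := by
    rw [dot_op A hA, dot_comm]
  linear_combination h3 - h1 + h2

variable {S : Set ((V → V → ℤ) × (V → ℤ))}

theorem Fam.ker_low (F : Fam l S) (hp : (A, u) ∈ S) (hh : ∀ x, op A h x = l * h x)
    (hv : u v = 0) : h v = 0 := by
  obtain ⟨g, b, s, -⟩ := F.ex _ hp v
  have h1 : dot h (op A g) = l * dot h g + b * h v := by
    unfold dot
    simp only [s.eig, hv, mul_add, sum_add_distrib, mul_ite, mul_zero, sum_ite_eq', mem_univ,
      if_true, mul_sum]
    congr 1
    · exact sum_congr rfl fun x _ => by ring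
    · ring
  have h2 : dot (op A h) g = l * dot h g := by
    unfold dot
    rw [mul_sum]
    exact sum_congr rfl fun x _ => by rw [hh]; ring
  rw [dot_op A (F.symm _ hp), h2] at h1
  have h3 : b * h v = 0 := by linarith
  exact (mul_eq_zero.1 h3).resolve_left s.bpos.ne'

theorem Fam.ker_P (F : Fam l S) (hp : (A, u) ∈ S) (hh : ∀ x, op A h x = l * h x)
    (hv : u v = 0) (s : SW l A u v g b) (hs : (sw v g A, u - g) ∈ S) (hw : g w = 1) :
    b * h w = dot g h := by
  have hv0 : h v = 0 := F.ker_low hp hh hv
  have h1 := F.ker_low (h := fun x => b * h x - dot g h * g x) (v := w) hs ?_ ?_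
  · simp only [hw] at h1; linarith
  · intro x
    rw [op_sw]
    have e1 : op A (fun x => b * h x - dot g h * g x) x = b * op A h x - dot g h * op A g x := by
      unfold op
      rw [mul_sum, mul_sum, ← sum_sub_distrib]
      exact sum_congr rfl fun y _ => by ring
    have e2 : dot g (fun x => b * h x - dot g h * g x) = b * dot g h - dot g h * dot g g := by
      conv_lhs => unfold dot
      conv_rhs => rw [dot, dot]
      simp only [mul_sub, sum_sub_distrib, mul_sum]
      congr 1
      · exact sum_congr rfl fun y _ => by ring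
      · exact sum_congr rfl fun y _ => by ring
    rw [e1, e2, s.dot_self, s.eig, hh, hv, hv0, s.gv]
    split_ifs <;> ring
  · simp only [Pi.sub_apply, hw]
    rcases s.tri w with h | ⟨_, h', _⟩ | ⟨h, _, _⟩
    · rw [h] at hw; norm_num at hw
    · rw [h']; rfl
    · rw [h] at hw; norm_num at hw

theorem Fam.ker_R (F : Fam l S) (hp : (A, u) ∈ S) (hh : ∀ x, op A h x = l * h x)
    (hv : u v = 1) (s : SW l A u v g b) (hs : (sw v g A, u - g) ∈ S) (hw : g w = 1) :
    h w = h v := by
  have hd : dot g h = b * h v := by
    have h1 : dot h (op A g) = (l - 1) * dot h g + b * h v := by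
      unfold dot
      simp only [s.eig, hv, mul_add, sum_add_distrib, mul_ite, mul_zero, sum_ite_eq', mem_univ,
        if_true, mul_sum]
      congr 1
      · exact sum_congr rfl fun x _ => by ring
      · ring
    have h2 : dot (op A h) g = l * dot h g := by
      unfold dot
      rw [mul_sum]
      exact sum_congr rfl fun x _ => by rw [hh]; ring
    rw [dot_op A (F.symm _ hp), h2] at h1
    rw [dot_comm]; linarith
  have h1 := F.ker_low (h := fun x => h x - h v * g x) (v := w) hs ?_ ?_
  · simp only [hw] at h1; linarith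
  · intro x
    rw [op_sw]
    have e1 : op A (fun x => h x - h v * g x) x = op A h x - h v * op A g x := by
      unfold op
      rw [mul_sum, ← sum_sub_distrib]
      exact sum_congr rfl fun y _ => by ring
    have e2 : dot g (fun x => h x - h v * g x) = dot g h - h v * dot g g := by
      unfold dot
      simp only [mul_sub, sum_sub_distrib, mul_sum]
      congr 1
      exact sum_congr rfl fun y _ => by ring
    rw [e1, e2, s.dot_self, s.eig, hh, hv, hd, s.gv]
    split_ifs <;> ring
  · simp only [Pi.sub_apply, hw]
    rcases s.tri w with h | ⟨_, h', _⟩ | ⟨h, _, _⟩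
    · rw [h] at hw; norm_num at hw
    · rw [h']; rfl
    · rw [h] at hw; norm_num at hw

end Pool.Agent.Lib.Pecede9
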