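import Pool.Agent.Lib.Pecede9.Uniq

/-!
# From graphs to families
-/

set_option autoImplicit false
set_option linter.unusedSectionVars false

open Finset

namespace Pool.Agent.Lib.Pecede9

variable {V : Type} [Fintype V] [DecidableEq V]

open Classical in
/-- adjacency as an integer -/
noncomputable def a (G : SimpleGraph V) (x y : V) : ℤ := if G.Adj x y then 1 else 0

/-- degree as an integer -/
noncomputable def dg (G : SimpleGraph V) (x : V) : ℤ := ∑ y, a G x y

theorem a_symm (G : SimpleGraph V) (x y : V) : a G x y = a G y x := by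
  unfold a
  by_cases h : G.Adj x y
  · rw [if_pos h, if_pos h.symm]
  · rw [if_neg h, if_neg fun h' => h h'.symm]

theorem a_01 (G : SimpleGraph V) (x y : V) : a G x y = 0 ∨ a G x y = 1 := by
  unfold a; split_ifs <;> simp

theorem a_one {G : SimpleGraph V} {x y : V} (h : G.Adj x y) : a G x y = 1 := by
  unfold a; exact if_pos h

theorem a_zero {G : SimpleGraph V} {x y : V} (h : ¬ G.Adj x y) : a G x y = 0 := by
  unfold a; exact if_neg h

theorem a_eq_one {G : SimpleGraph V} {x y : V} : a G x y = 1 ↔ G.Adj x y := by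
  unfold a; split_ifs with h <;> simp [h]

theorem a_inj {G H : SimpleGraph V} (h : a G = a H) : G = H := by
  ext x y
  rw [← a_eq_one, h, a_eq_one]

/-- the graphs agree off `v` -/
def Agree (v : V) (G H : SimpleGraph V) : Prop :=
  ∀ x y, x ≠ v → y ≠ v → (G.Adj x y ↔ H.Adj x y)

theorem Agree.symm {v : V} {G H : SimpleGraph V} (h : Agree v G H) : Agree v H G :=
  fun x y hx hy => (h x y hx hy).symm

theorem Agree.trans {v : V} {G H K : SimpleGraph V} (h : Agree v G H) (h' : Agree v H K) :
    Agree v G K :=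
  fun x y hx hy => (h x y hx hy).trans (h' x y hx hy)

theorem Agree.a {v : V} {G H : SimpleGraph V} (h : Agree v G H) {x y : V} (hx : x ≠ v)
    (hy : y ≠ v) : a G x y = a H x y := by
  have h1 := h x y hx hy
  by_cases h2 : G.Adj x y
  · rw [a_one h2, a_one (h1.1 h2)]
  · rw [a_zero h2, a_zero fun h3 => h2 (h1.2 h3)]

/-- near regular graph with equitable degree partition -/
structure Good (d t l q : ℤ) (G : SimpleGraph V) : Prop where
  h01 : ∀ x, dg G x - d = 0 ∨ dg G x - d = 1
  eqt : ∀ x, ∑ y, a G x y * (dg G y - d) = t + l * (dg G x - d)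
  sum : ∑ x, (dg G x - d) = q

theorem Good.switch {d t l q : ℤ} {v : V} {G H : SimpleGraph V} (hG : Good d t l q G)
    (hH : Good d t l q H) (hv : Agree v G H) (hne : G ≠ H) :
    ∃ b : ℤ, SW l (a G) (fun x => dg G x - d) v (fun x => dg G x - dg H x) b ∧
      sw v (fun x => dg G x - dg H x) (a G) = a H ∧
      (fun x => dg G x - d) - (fun x => dg G x - dg H x) = fun x => dg H x - d := by
  set g : V → ℤ := fun x => dg G x - dg H x with hg
  have g1 : ∀ x, x ≠ v → g x = a G x v - a H x v := by
    intro x hx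
    have : g x = ∑ y, (a G x y - a H x y) := by
      rw [sum_sub_distrib]; rfl
    rw [this]
    refine (sum_eq_single v (fun y _ hy => ?_) (fun h => absurd (mem_univ v) h))
    rw [hv.a hx hy]; ring
  have g0 : ∑ x, g x = 0 := by
    have h1 := hG.sum
    have h2 := hH.sum
    have : ∑ x, g x = ∑ x, (dg G x - d) - ∑ x, (dg H x - d) := by
      rw [← sum_sub_distrib]
      exact sum_congr rfl fun x _ => by simp only [hg]; ring
    rw [this, h1, h2]; ring
  have gv : g v = 0 := by
    have h1 : ∑ x, g x = g v + ∑ x ∈ univ.erase v, g x := by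
      rw [add_comm, sum_erase_add _ _ (mem_univ v)]
    have h2 : ∑ x ∈ univ.erase v, g x = ∑ x ∈ univ.erase v, (a G x v - a H x v) :=
      sum_congr rfl fun x hx => g1 x (ne_of_mem_erase hx)
    have h3 : ∑ x ∈ univ.erase v, (a G x v - a H x v) = g v := by
      have : g v = ∑ x, (a G x v - a H x v) := by
        simp only [hg]
        unfold dg
        rw [← sum_sub_distrib]
        exact sum_congr rfl fun x _ => by rw [a_symm G v x, a_symm H v x]
      rw [this, ← sum_erase_add _ _ (mem_univ v)]
      have e1 : a G v v = 0 := a_zero (G.loopless.irrefl v)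
      have e2 : a H v v = 0 := a_zero (H.loopless.irrefl v)
      rw [e1, e2]; ring
    rw [h2, h3] at h1
    linarith
  have hsw : sw v g (a G) = a H := by
    funext x y
    unfold sw
    by_cases hx : x = v
    · by_cases hy : y = v
      · rw [if_pos hx, if_pos hy, hx, hy, gv, a_zero (G.loopless.irrefl v),
          a_zero (H.loopless.irrefl v)]
        ring
      · rw [if_pos hx, if_neg hy, hx, g1 y hy, a_symm G v y, a_symm H v y]; ring
    · by_cases hy : y = v
      · rw [if_neg hx, if_pos hy, hy, g1 x hx]; ring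
      · rw [if_neg hx, if_neg hy, hv.a hx hy]; ring
  have hug : (fun x => dg G x - d) - g = fun x => dg H x - d := by
    funext x; simp only [Pi.sub_apply, hg]; ring
  have htri : ∀ x, g x = 0 ∨ (g x = 1 ∧ dg G x - d = 1 ∧ a G v x = 1) ∨
      (g x = -1 ∧ dg G x - d = 0 ∧ a G v x = 0) := by
    intro x
    by_cases hx : x = v
    · left; rw [hx, gv]
    have h1 := g1 x hx
    rw [a_symm G x v, a_symm H x v] at h1
    have h2 : g x = (dg G x - d) - (dg H x - d) := by simp only [hg]; ring
    rcases hG.h01 x with h3 | h3 <;> rcases hH.h01 x with h4 | h4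
    · left; rw [h2, h3, h4]; rfl
    · right; right
      refine ⟨by rw [h2, h3, h4]; rfl, h3, ?_⟩
      rw [h2, h3, h4] at h1
      rcases a_01 G v x with h5 | h5
      · exact h5
      · rcases a_01 H v x with h6 | h6 <;> rw [h5, h6] at h1 <;> norm_num at h1
    · right; left
      refine ⟨by rw [h2, h3, h4]; rfl, h3, ?_⟩
      rw [h2, h3, h4] at h1
      rcases a_01 G v x with h5 | h5
      · rcases a_01 H v x with h6 | h6 <;> rw [h5, h6] at h1 <;> norm_num at h1
      · exact h5
    · left; rw [h2, h3, h4]; rfl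
  refine ⟨∑ x, g x * (dg G x - d), ⟨gv, htri, ?_, rfl, g0, ?_⟩, hsw, hug⟩
  · -- positivity
    have h1 : ∀ x ∈ univ, 0 ≤ g x * (dg G x - d) := by
      intro x _
      rcases htri x with h | ⟨h, h', _⟩ | ⟨h, h', _⟩
      · rw [h]; simp
      · rw [h, h']; norm_num
      · rw [h']; simp
    refine lt_of_le_of_ne (sum_nonneg h1) (fun h0 => hne ?_)
    have h2 := (sum_eq_zero_iff_of_nonneg h1).1 h0.symm
    have h3 : ∀ x ∈ univ, g x ≤ 0 := by
      intro x _
      rcases htri x with h | ⟨h, h', _⟩ | ⟨h, _, _⟩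
      · rw [h]
      · have := h2 x (mem_univ x)
        rw [h, h'] at this
        norm_num at this
      · rw [h]; norm_num
    have h4 := (sum_eq_zero_iff_of_nonpos h3).1 g0
    apply a_inj
    rw [← hsw]
    funext x y
    unfold sw
    rw [h4 x (mem_univ x), h4 y (mem_univ y)]
    simp
  · intro x
    have h1 : ∑ y, a H x y * (dg H y - d) = t + l * (dg H x - d) := hH.eqt x
    have h2 : ∑ y, a G x y * (dg G y - d) = t + l * (dg G x - d) := hG.eqt x
    have h3 : op (sw v g (a G)) (fun y => dg H y - d) x = ∑ y, a H x y * (dg H y - d) := by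
      rw [hsw]; rfl
    have hH' : (fun y => dg H y - d) = fun y => (dg G y - d) - g y := by
      funext y; simp only [hg]; ring
    rw [op_sw] at h3
    have h4 : op (a G) (fun y => dg H y - d) x =
        ∑ y, a G x y * (dg G y - d) - op (a G) g x := by
      rw [hH']
      unfold op
      rw [← sum_sub_distrib]
      exact sum_congr rfl fun y _ => by ring
    have h5 : dot g (fun y => dg H y - d) = - ∑ y, g y * (dg G y - d) := by
      have h6 : ∀ y, g y * (dg H y - d) = - (g y * (dg G y - d)) + g y := by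
        intro y
        have h7 : dg H y - d = (dg G y - d) - g y := by simp only [hg]; ring
        rw [h7]
        rcases htri y with h | ⟨h, h', _⟩ | ⟨h, h', _⟩
        · rw [h]; ring
        · rw [h, h']; norm_num
        · rw [h, h']; norm_num
      unfold dot
      rw [sum_congr rfl fun y _ => h6 y, sum_add_distrib, g0, sum_neg_distrib]; ring
    have h8 : dg H v - d = dg G v - d := by
      have : g v = dg G v - dg H v := rfl
      linarith
    have h9 : dg H x - d = (dg G x - d) - g x := by simp only [hg]; ring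
    rw [h4, h5, h1, h2, h8, h9] at h3
    split_ifs at h3 ⊢ with hx
    · linarith
    · linarith

/-- the family of pairs of a set of graphs -/
def fam (d : ℤ) (S : Set (SimpleGraph V)) : Set ((V → V → ℤ) × (V → ℤ)) :=
  (fun G => (a G, fun x => dg G x - d)) '' S

theorem fam_isFam {d t l q : ℤ} {S : Set (SimpleGraph V)} (hS : ∀ G ∈ S, Good d t l q G)
    (hex : ∀ G ∈ S, ∀ v, ∃ H ∈ S, H ≠ G ∧ Agree v G H) : Fam l (fam d S) where
  symm := by
    rintro _ ⟨G, -, rfl⟩ x y
    exact a_symm G x y
  u01 := by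
    rintro _ ⟨G, hG, rfl⟩ x
    exact (hS G hG).h01 x
  ex := by
    rintro _ ⟨G, hG, rfl⟩ v
    obtain ⟨H, hH, hne, hv⟩ := hex G hG v
    obtain ⟨b, s, h1, h2⟩ := (hS G hG).switch (hS H hH) hv hne.symm
    refine ⟨_, b, s, ⟨H, hH, ?_⟩⟩
    simp only
    rw [h1, h2]

/-- **in a closed family of near regular equitable graphs the second extension of every card is
unique** -/
theorem unique_ext {d t l q : ℤ} {S : Set (SimpleGraph V)} (hS : ∀ G ∈ S, Good d t l q G)
    (hex : ∀ G ∈ S, ∀ v, ∃ H ∈ S, H ≠ G ∧ Agree v G H) {G H K : SimpleGraph V} {v : V}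
    (hG : G ∈ S) (hH : H ∈ S) (hK : K ∈ S) (h1 : H ≠ G) (h2 : K ≠ G) (h3 : Agree v G H)
    (h4 : Agree v G K) : H = K := by
  obtain ⟨b, s, e1, e2⟩ := (hS G hG).switch (hS H hH) h3 h1.symm
  obtain ⟨b', s', e1', e2'⟩ := (hS G hG).switch (hS K hK) h4 h2.symm
  have h5 := (fam_isFam hS hex).uniq ⟨G, hG, rfl⟩ s ⟨H, hH, by simp only; rw [e1, e2]⟩ s'
  apply a_inj
  rw [← e1, ← e1', h5]

end Pool.Agent.Lib.Pecede9
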