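import Pool.Agent.Lib.Pecede9.Card

/-!
# Multiplicities of cards
-/

set_option autoImplicit false
set_option linter.unusedSectionVars false

open Finset

namespace Pool.Agent.Lib.Pecede9

variable {V : Type} [Fintype V] [DecidableEq V]
variable {G H K : SimpleGraph V} {v w z : V}

/-- no two degrees differ by one: reconstruction -/
theorem recon [Nonempty V] (h : SC G H)
    (hno : ∀ x y, dg G x ≠ dg H y + 1 ∧ dg H y ≠ dg G x + 1) : Nonempty (G ≃g H) := by
  obtain ⟨v⟩ := ‹Nonempty V›
  obtain ⟨w, hw⟩ := h.1 v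
  obtain ⟨π, h0, h1⟩ := hw.exists_equiv
  have h2 : ∀ x, x ≠ v → a G x v = a H (π x) w := by
    intro x hx
    have h3 := card_deg h0 h1 hx
    obtain ⟨h4, h5⟩ := hno x (π x)
    rcases a_01 G x v with h6 | h6 <;> rcases a_01 H (π x) w with h7 | h7 <;>
      rw [h6, h7] at h3 ⊢
    · exact absurd (by linarith) h5
    · exact absurd (by linarith) h4
  have h3 : ∀ x y, a G x y = a H (π x) (π y) := by
    intro x y
    by_cases hx : x = v
    · by_cases hy : y = v
      · rw [hx, hy, a_self, a_self]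
      · rw [hx, h0, a_symm G, a_symm H, h2 y hy]
    · by_cases hy : y = v
      · rw [hy, h0, h2 x hx]
      · have h4 := h1 x y hx hy
        by_cases h5 : G.Adj x y
        · rw [a_one h5, a_one (h4.1 h5)]
        · rw [a_zero h5, a_zero fun h6 => h5 (h4.2 h6)]
  exact ⟨⟨π, by intro x y; rw [← a_eq_one, ← a_eq_one, ← h3]⟩⟩

theorem mult_of_iso (φ : G ≃g H) (K : SimpleGraph V) (z : V) :
    Set.ncard {u | CI G u K z} = Set.ncard {u | CI H u K z} := by
  refine Set.ncard_congr (fun u _ => φ u) ?_ ?_ ?_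
  · intro u hu
    exact (CI.of_iso φ u).symm.trans hu
  · intro u u' _ _ h
    exact φ.injective h
  · intro u hu
    refine ⟨φ.symm u, ?_, by simp⟩
    have h1 := CI.of_iso φ (φ.symm u)
    rw [RelIso.apply_symm_apply] at h1
    exact h1.trans hu

theorem dg_iso (φ : K ≃g G) (x : V) : dg K x = dg G (φ x) := by
  unfold dg
  rw [← Equiv.sum_comp φ.toEquiv (fun y => a G (φ x) y)]
  refine sum_congr rfl fun y _ => ?_
  have h := φ.map_adj_iff (v := x) (w := y)
  by_cases h1 : K.Adj x y
  · rw [a_one h1]; exact (a_one (h.2 h1)).symm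
  · rw [a_zero h1]; exact (a_zero fun h2 => h1 (h.1 h2)).symm

theorem a_iso (φ : K ≃g G) (x y : V) : a K x y = a G (φ x) (φ y) := by
  have h := φ.map_adj_iff (v := x) (w := y)
  by_cases h1 : K.Adj x y
  · rw [a_one h1]; exact (a_one (h.2 h1)).symm
  · rw [a_zero h1]; exact (a_zero fun h2 => h1 (h.1 h2)).symm

theorem Good.iso {d t l q : ℤ} (hG : Good d t l q G) (φ : K ≃g G) : Good d t l q K where
  h01 x := by rw [dg_iso φ]; exact hG.h01 _
  eqt x := by
    rw [dg_iso φ, ← hG.eqt,
      ← Equiv.sum_comp φ.toEquiv (fun y => a G (φ x) y * (dg G y - d))]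
    exact sum_congr rfl fun y _ => by rw [a_iso φ, dg_iso φ]; rfl
  sum := by
    rw [← hG.sum, ← Equiv.sum_comp φ.toEquiv (fun y => dg G y - d)]
    exact sum_congr rfl fun y _ => by rw [dg_iso φ]; rfl

/-- the number of neighbours of degree `d + 1` -/
noncomputable def T (G : SimpleGraph V) (d : ℤ) (v : V) : ℤ := ∑ y, a G v y * (dg G y - d)

theorem T_formula {d : ℤ} (h01 : ∀ x, dg G x - d = 0 ∨ dg G x - d = 1) (v : V) :
    2 * T G d v = (Fintype.card V : ℤ) * d ^ 2 + (2 * d + 1) * (E G - Fintype.card V * d)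
      - (2 * d - 1) * dg G v - dg G v ^ 2 - CS G v (fun x => x ^ 2) := by
  have e1 : CS G v (fun x => x ^ 2) + (dg G v) ^ 2 = ∑ x, (dg G x - a G x v) ^ 2 := by
    unfold CS
    rw [← sum_erase_add (f := fun x => (dg G x - a G x v) ^ 2) univ (mem_univ v), a_self, sub_zero]
  have e2 : ∀ x, (dg G x - a G x v) ^ 2 =
      d ^ 2 + (2 * d + 1) * (dg G x - d) - (2 * d - 1) * a G v x - 2 * (a G v x * (dg G x - d)) := by
    intro x
    rw [a_symm G x v]
    rcases h01 x with h | h
    · have h' : dg G x = d := by linarith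
      rcases a_01 G v x with h1 | h1 <;> rw [h', h1] <;> ring
    · have h' : dg G x = d + 1 := by linarith
      rcases a_01 G v x with h1 | h1 <;> rw [h', h1] <;> ring
  have e3 : ∑ x, (dg G x - a G x v) ^ 2 = (Fintype.card V : ℤ) * d ^ 2
      + (2 * d + 1) * (E G - Fintype.card V * d) - (2 * d - 1) * dg G v - 2 * T G d v := by
    rw [sum_congr rfl fun x _ => e2 x]
    simp only [sum_sub_distrib, sum_add_distrib, ← mul_sum, sum_const, card_univ, nsmul_eq_mul]
    rfl
  linarith

theorem T_eq (hn : 4 ≤ Fintype.card V) (h : SC G H) {d : ℤ}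
    (hG : ∀ x, dg G x - d = 0 ∨ dg G x - d = 1) (hH : ∀ x, dg H x - d = 0 ∨ dg H x - d = 1)
    (hc : CI G v H w) : T G d v = T H d w := by
  have h1 := T_formula hG v
  have h2 := T_formula hH w
  rw [h.edges hn, h.deg hn hc, hc.cs] at h1
  linarith

theorem h01_right (hn : 4 ≤ Fintype.card V) (h : SC G H) {d : ℤ}
    (hG : ∀ x, dg G x - d = 0 ∨ dg G x - d = 1) (x : V) : dg H x - d = 0 ∨ dg H x - d = 1 := by
  obtain ⟨v, hv⟩ := h.2 x
  rw [← h.deg hn hv]
  exact hG v

/-- **the equitable near regular case**, any number of cards -/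
theorem equitable [Nonempty V] (hn : 4 ≤ Fintype.card V) (h : SC G H) {d t l q : ℤ}
    (hG : Good d t l q G) (z : V) :
    Set.ncard {u | CI G u G z} = Set.ncard {u | CI H u G z} := by
  by_cases hGH : Nonempty (G ≃g H)
  · obtain ⟨φ⟩ := hGH
    exact mult_of_iso φ G z
  have hH : Good d t l q H := by
    refine ⟨h01_right hn h hG.h01, fun x => ?_, ?_⟩
    · obtain ⟨v, hv⟩ := h.2 x
      have h1 := T_eq hn h hG.h01 (h01_right hn h hG.h01) hv
      have h2 := hG.eqt v
      rw [h.deg hn hv] at h2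
      unfold T at h1
      rw [← h1, h2]
    · have h1 := h.edges hn
      have h2 := hG.sum
      rw [sum_sub_distrib] at h2 ⊢
      unfold E at h1
      rw [← h1]; exact h2
  refine mult_eq (G := G) (H := H) (d := d) (t := t) (l := l) (q := q)
    (fun K u => CI K u G z) ?_ ?_ hGH ?_ ?_ ?_
  · intro K L φ v
    exact ⟨fun h1 => (CI.of_iso φ v).symm.trans h1, fun h1 => (CI.of_iso φ v).trans h1⟩
  · intro v K L hv
    exact ⟨fun h1 => (CI.of_agree hv).symm.trans h1, fun h1 => (CI.of_agree hv).trans h1⟩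
  · intro K hK
    rcases hK with hK | hK
    · obtain ⟨φ⟩ := hK
      exact hG.iso φ
    · obtain ⟨φ⟩ := hK
      exact hH.iso φ
  · intro v
    obtain ⟨w, hw⟩ := h.1 v
    exact hw.exists_copy
  · intro v
    obtain ⟨w, hw⟩ := h.2 v
    exact hw.symm.exists_copy

end Pool.Agent.Lib.Pecede9
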