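import Pool.Agent.Lib.Pecede9.Main

/-!
# At most three cards
-/

set_option autoImplicit false
set_option linter.unusedSectionVars false

open Finset

namespace Pool.Agent.Lib.Pecede9

variable {V : Type} [Fintype V] [DecidableEq V]
variable {G H K : SimpleGraph V} {v w z : V}

/-- number of vertices with a property, as an integer -/
noncomputable def cn (A : V → Prop) : ℤ := by
  classical exact ((univ.filter A).card : ℤ)

theorem cn_nonneg (A : V → Prop) : 0 ≤ cn A := by
  unfold cn; positivity

theorem cn_eq (A : V → Prop) [DecidablePred A] : cn A = ∑ x : V, if A x then (1 : ℤ) else 0 := by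
  unfold cn
  rw [card_filter]
  push_cast
  refine sum_congr rfl fun x _ => ?_
  by_cases h : A x
  · rw [if_pos h]
  · rw [if_neg h]

theorem cn_ncard (A : V → Prop) : cn A = (Set.ncard {x | A x} : ℤ) := by
  classical
  unfold cn
  rw [← Set.ncard_coe_finset]
  congr 2
  ext x; simp

/-- weighted sum over three classes -/
theorem three_sum (A B : V → Prop) (F : V → ℤ) (fa fb fc : ℤ) (h1 : ∀ x, A x → F x = fa)
    (h2 : ∀ x, ¬ A x → B x → F x = fb) (h3 : ∀ x, ¬ A x → ¬ B x → F x = fc) :
    ∑ x, F x = cn A * fa + cn (fun x => ¬ A x ∧ B x) * fb +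
      cn (fun x => ¬ A x ∧ ¬ B x) * fc := by
  classical
  rw [cn_eq, cn_eq, cn_eq, sum_mul, sum_mul, sum_mul, ← sum_add_distrib, ← sum_add_distrib]
  refine sum_congr rfl fun x _ => ?_
  by_cases hA : A x
  · rw [h1 x hA]; simp [hA]
  · by_cases hB : B x
    · rw [h2 x hA hB]; simp [hA, hB]
    · rw [h3 x hA hB]; simp [hA, hB]

open Classical in
/-- number of neighbours of a given degree -/
noncomputable def nd (G : SimpleGraph V) (v : V) (k : ℤ) : ℤ :=
  ∑ x, a G v x * if dg G x = k then 1 else 0

theorem nd_nonneg (G : SimpleGraph V) (v : V) (k : ℤ) : 0 ≤ nd G v k := by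
  unfold nd
  refine sum_nonneg fun x _ => ?_
  rcases a_01 G v x with h | h <;> rw [h] <;> split_ifs <;> norm_num

theorem nd_le (G : SimpleGraph V) (v : V) (k : ℤ) : nd G v k ≤ cn fun x => dg G x = k := by
  classical
  rw [cn_eq]
  unfold nd
  refine sum_le_sum fun x _ => ?_
  rcases a_01 G v x with h | h <;> rw [h] <;> split_ifs <;> norm_num

/-- double counting of the edges between two degree classes -/
theorem nd_double (G : SimpleGraph V) (k m : ℤ) (α s : ℤ) (h1 : ∀ v, dg G v = k → nd G v m = α)
    (h2 : ∀ v, dg G v = m → nd G v k = s) :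
    (cn fun x => dg G x = k) * α = (cn fun x => dg G x = m) * s := by
  classical
  rw [cn_eq, cn_eq, sum_mul, sum_mul]
  have e1 : ∀ v, (if dg G v = k then (1 : ℤ) else 0) * α =
      ∑ x, (if dg G v = k then (1 : ℤ) else 0) * (a G v x * if dg G x = m then 1 else 0) := by
    intro v
    rw [← mul_sum]
    split_ifs with h
    · rw [← h1 v h]; rfl
    · simp
  have e2 : ∀ v, (if dg G v = m then (1 : ℤ) else 0) * s =
      ∑ x, (if dg G v = m then (1 : ℤ) else 0) * (a G v x * if dg G x = k then 1 else 0) := by
    intro v
    rw [← mul_sum]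
    split_ifs with h
    · rw [← h2 v h]; rfl
    · simp
  rw [sum_congr rfl fun v _ => e1 v, sum_congr rfl fun v _ => e2 v, sum_comm]
  refine sum_congr rfl fun v _ => sum_congr rfl fun x _ => ?_
  rw [a_symm G v x]; ring

open Classical in
/-- the number of vertices of the largest degree in a card -/
theorem CS_top (G : SimpleGraph V) (v : V) (m : ℤ) (hm : ∀ x, dg G x ≤ m) (hv : dg G v ≠ m) :
    CS G v (fun k => if k = m then 1 else 0) = (cn fun x => dg G x = m) - nd G v m := by
  have e1 : CS G v (fun k => if k = m then 1 else 0) =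
      ∑ x, if dg G x - a G x v = m then (1 : ℤ) else 0 := by
    unfold CS
    rw [← sum_erase_add (f := fun x => if dg G x - a G x v = m then (1 : ℤ) else 0) univ
      (mem_univ v), a_self, sub_zero, if_neg hv, add_zero]
  rw [e1, cn_eq]
  unfold nd
  rw [← sum_sub_distrib]
  refine sum_congr rfl fun x _ => ?_
  rw [a_symm G x v]
  have h1 := hm x
  rcases a_01 G v x with h | h
  · rw [h]; simp
  · rw [h, if_neg (by intro h3; linarith : ¬ dg G x - 1 = m)]; ring

open Classical in
/-- the number of vertices of degree less than the smallest degree in a card -/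
theorem CS_bot (G : SimpleGraph V) (v : V) (m : ℤ) (hm : ∀ x, m ≤ dg G x) (hv : dg G v ≠ m - 1) :
    CS G v (fun k => if k = m - 1 then 1 else 0) = nd G v m := by
  have e1 : CS G v (fun k => if k = m - 1 then 1 else 0) =
      ∑ x, if dg G x - a G x v = m - 1 then (1 : ℤ) else 0 := by
    unfold CS
    rw [← sum_erase_add (f := fun x => if dg G x - a G x v = m - 1 then (1 : ℤ) else 0) univ
      (mem_univ v), a_self, sub_zero, if_neg hv, add_zero]
  rw [e1]
  unfold nd
  refine sum_congr rfl fun x _ => ?_
  rw [a_symm G x v]
  have h1 := hm x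
  rcases a_01 G v x with h | h
  · rw [h, if_neg (by intro h3; linarith)]; simp
  · rw [h]
    by_cases h2 : dg G x = m
    · rw [if_pos h2, if_pos (by linarith)]; norm_num
    · rw [if_neg h2, if_neg (by intro h3; apply h2; linarith)]; norm_num

/-- the arithmetic of three different degrees -/
theorem three_arith {x1 x3 y1 y3 α s p r : ℤ} (hp : 0 < p) (hr : 0 < r)
    (h : (x1 - y1) * p = (x3 - y3) * r) (h1 : x1 * α = x3 * s) (h2 : y1 * (α + y3 - x3) = y3 * s)
    (hα : 0 ≤ α) (hα' : 0 ≤ α + y3 - x3) (hs1 : s ≤ x1) (hs2 : s ≤ y1) : x3 = y3 := by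
  rcases lt_trichotomy x3 y3 with hlt | heq | hlt
  · exfalso
    have hk : 0 < y3 - x3 := by linarith
    have hY : 0 < y1 - x1 := by
      have : 0 < (y1 - x1) * p := by
        have := mul_pos hk hr
        linarith
      exact pos_of_mul_pos_left this hp.le
    have e1 : (y3 - x3) * s ≤ (y3 - x3) * x1 := mul_le_mul_of_nonneg_left hs1 hk.le
    have e2 : 0 ≤ (y1 - x1) * α := mul_nonneg hY.le hα
    have e3 : 0 < (y1 - x1) * (y3 - x3) := mul_pos hY hk
    linarith [mul_comm y1 α, mul_comm x1 α, mul_comm y3 s, mul_comm x3 s]
  · exact heq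
  · exfalso
    have hk : 0 < x3 - y3 := by linarith
    have hX : 0 < x1 - y1 := by
      have : 0 < (x1 - y1) * p := by
        have := mul_pos hk hr
        linarith
      exact pos_of_mul_pos_left this hp.le
    have e1 : (x3 - y3) * s ≤ (x3 - y3) * y1 := mul_le_mul_of_nonneg_left hs2 hk.le
    have e2 : 0 ≤ (x1 - y1) * (α + y3 - x3) := mul_nonneg hX.le hα'
    have e3 : 0 < (x1 - y1) * (x3 - y3) := mul_pos hX hk
    nlinarith

/-- sum of the invariant `T` -/
theorem T_sum {d : ℤ} (h01 : ∀ x, dg G x - d = 0 ∨ dg G x - d = 1) :
    ∑ v, T G d v = (d + 1) * (E G - Fintype.card V * d) := by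
  have e1 : ∑ v, T G d v = ∑ x, (dg G x - d) * dg G x := by
    unfold T
    rw [sum_comm]
    refine sum_congr rfl fun x _ => ?_
    rw [← sum_mul]
    have : ∑ y, a G y x = dg G x := by
      unfold dg; exact sum_congr rfl fun y _ => a_symm G y x
    rw [this]; ring
  have e2 : ∀ x, (dg G x - d) * dg G x = (d + 1) * (dg G x - d) := by
    intro x
    rcases h01 x with h | h
    · rw [h]; ring
    · have : dg G x = d + 1 := by linarith
      rw [this]; ring
  rw [e1, sum_congr rfl fun x _ => e2 x, ← mul_sum, sum_sub_distrib]
  simp only [sum_const, card_univ, nsmul_eq_mul]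
  rfl

/-- **at most three cards**, sorted by degree -/
theorem three_sorted [Nonempty V] (hn : 4 ≤ Fintype.card V) (h : SC G H) (p q r : V)
    (hcov : ∀ v, CI G v G p ∨ CI G v G q ∨ CI G v G r) (hpq : dg G p ≤ dg G q)
    (hqr : dg G q ≤ dg G r) (z : V) :
    Set.ncard {u | CI G u G z} = Set.ncard {u | CI H u G z} := by
  by_cases hGH : Nonempty (G ≃g H)
  · obtain ⟨φ⟩ := hGH
    exact mult_of_iso φ G z
  by_cases hng : ∃ d t l q, Good d t l q G
  · obtain ⟨d, t, l, q, hgood⟩ := hng
    exact equitable hn h hgood z
  have hcov' : ∀ w, CI H w G p ∨ CI H w G q ∨ CI H w G r := by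
    intro w
    obtain ⟨v, hv⟩ := h.2 w
    rcases hcov v with h1 | h1 | h1
    · exact Or.inl (hv.symm.trans h1)
    · exact Or.inr (Or.inl (hv.symm.trans h1))
    · exact Or.inr (Or.inr (hv.symm.trans h1))
  have hSG : SC G G := ⟨fun v => ⟨v, CI.refl G v⟩, fun v => ⟨v, CI.refl G v⟩⟩
  have dG : ∀ v x, CI G v G x → dg G v = dg G x := fun v x hc => hSG.deg hn hc
  have dH : ∀ v x, CI H v G x → dg H v = dg G x := fun v x hc => (h.deg hn hc.symm).symm
  -- the class sizes
  set x1 : ℤ := cn fun v => CI G v G p with hx1
  set x2 : ℤ := cn fun v => ¬ CI G v G p ∧ CI G v G q with hx2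
  set x3 : ℤ := cn fun v => ¬ CI G v G p ∧ ¬ CI G v G q with hx3
  set y1 : ℤ := cn fun v => CI H v G p with hy1
  set y2 : ℤ := cn fun v => ¬ CI H v G p ∧ CI H v G q with hy2
  set y3 : ℤ := cn fun v => ¬ CI H v G p ∧ ¬ CI H v G q with hy3
  -- it is enough to compare the class sizes
  suffices hfin : x1 = y1 ∧ x2 = y2 ∧ x3 = y3 by
    obtain ⟨f1, f2, f3⟩ := hfin
    rw [hx1, hy1, cn_ncard, cn_ncard] at f1
    rw [hx2, hy2, cn_ncard, cn_ncard] at f2
    rw [hx3, hy3, cn_ncard, cn_ncard] at f3
    by_cases hz1 : CI G z G p
    · have e1 : {u | CI G u G z} = {u | CI G u G p} := by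
        ext u; exact ⟨fun h1 => h1.trans hz1, fun h1 => h1.trans hz1.symm⟩
      have e2 : {u | CI H u G z} = {u | CI H u G p} := by
        ext u; exact ⟨fun h1 => h1.trans hz1, fun h1 => h1.trans hz1.symm⟩
      rw [e1, e2]; exact_mod_cast f1
    by_cases hz2 : CI G z G q
    · have hqp : ¬ CI G q G p := fun h1 => hz1 (hz2.trans h1)
      have e1 : {u | CI G u G z} = {u | ¬ CI G u G p ∧ CI G u G q} := by
        ext u
        exact ⟨fun h1 => ⟨fun h2 => hqp ((h1.trans hz2).symm.trans h2), h1.trans hz2⟩,
          fun h1 => h1.2.trans hz2.symm⟩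
      have e2 : {u | CI H u G z} = {u | ¬ CI H u G p ∧ CI H u G q} := by
        ext u
        exact ⟨fun h1 => ⟨fun h2 => hqp ((h1.trans hz2).symm.trans h2), h1.trans hz2⟩,
          fun h1 => h1.2.trans hz2.symm⟩
      rw [e1, e2]; exact_mod_cast f2
    · have hz3 : CI G z G r := ((hcov z).resolve_left hz1).resolve_left hz2
      have e1 : {u | CI G u G z} = {u | ¬ CI G u G p ∧ ¬ CI G u G q} := by
        ext u
        exact ⟨fun h1 => ⟨fun h2 => hz1 (h1.symm.trans h2), fun h2 => hz2 (h1.symm.trans h2)⟩,
          fun h1 => (((hcov u).resolve_left h1.1).resolve_left h1.2).trans hz3.symm⟩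
      have e2 : {u | CI H u G z} = {u | ¬ CI H u G p ∧ ¬ CI H u G q} := by
        ext u
        exact ⟨fun h1 => ⟨fun h2 => hz1 (h1.symm.trans h2), fun h2 => hz2 (h1.symm.trans h2)⟩,
          fun h1 => (((hcov' u).resolve_left h1.1).resolve_left h1.2).trans hz3.symm⟩
      rw [e1, e2]; exact_mod_cast f3
  -- the general linear relation
  have rel : ∀ (F F' : V → ℤ), (∀ v x, CI G v G x → F v = F x) → (∀ v x, CI H v G x → F' v = F x) →
      ∑ v, F v = ∑ v, F' v →
      x1 * F p + x2 * F q + x3 * F r = y1 * F p + y2 * F q + y3 * F r := by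
    intro F F' h1 h2 h3
    have e1 := three_sum (fun v => CI G v G p) (fun v => CI G v G q) F (F p) (F q) (F r)
      (fun v hv => h1 v p hv) (fun v _ hv => h1 v q hv)
      (fun v hv hv' => h1 v r (((hcov v).resolve_left hv).resolve_left hv'))
    have e2 := three_sum (fun v => CI H v G p) (fun v => CI H v G q) F' (F p) (F q) (F r)
      (fun v hv => h2 v p hv) (fun v _ hv => h2 v q hv)
      (fun v hv hv' => h2 v r (((hcov' v).resolve_left hv).resolve_left hv'))
    rw [← e1, ← e2, h3]
  have r0 : x1 + x2 + x3 = y1 + y2 + y3 := by
    have := rel (fun _ => 1) (fun _ => 1) (fun _ _ _ => rfl) (fun _ _ _ => rfl) rfl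
    linarith
  have r1 : x1 * dg G p + x2 * dg G q + x3 * dg G r = y1 * dg G p + y2 * dg G q + y3 * dg G r :=
    rel (dg G) (dg H) dG dH (h.edges hn)
  -- degrees
  have degG : ∀ v, dg G v = dg G p ∨ dg G v = dg G q ∨ dg G v = dg G r := by
    intro v
    rcases hcov v with h1 | h1 | h1
    · exact Or.inl (dG _ _ h1)
    · exact Or.inr (Or.inl (dG _ _ h1))
    · exact Or.inr (Or.inr (dG _ _ h1))
  have degH : ∀ v, dg H v = dg G p ∨ dg H v = dg G q ∨ dg H v = dg G r := by
    intro v
    rcases hcov' v with h1 | h1 | h1
    · exact Or.inl (dH _ _ h1)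
    · exact Or.inr (Or.inl (dH _ _ h1))
    · exact Or.inr (Or.inr (dH _ _ h1))
  have Trel : ∀ d : ℤ, (∀ x, dg G x - d = 0 ∨ dg G x - d = 1) →
      x1 * T G d p + x2 * T G d q + x3 * T G d r = y1 * T G d p + y2 * T G d q + y3 * T G d r := by
    intro d h01
    have h01' := h01_right hn h h01
    refine rel (T G d) (T H d) (fun v x hc => T_eq hn hSG h01 h01 hc)
      (fun v x hc => (T_eq hn h h01 h01' hc.symm).symm) ?_
    rw [T_sum h01, T_sum h01', h.edges hn]
  rcases hpq.eq_or_lt with e12 | l12
  · rcases hqr.eq_or_lt with e23 | l23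
    · -- regular
      exfalso
      apply hGH
      refine recon h fun x y => ?_
      have h1 : dg G x = dg G p := by rcases degG x with h | h | h <;> linarith
      have h2 : dg H y = dg G p := by rcases degH y with h | h | h <;> linarith
      rw [h1, h2]
      constructor <;> intro h3 <;> linarith
    · -- two degrees, the lower one has two cards
      have z3 : x3 = y3 := by
        have h1 : (x3 - y3) * (dg G r - dg G q) = 0 := by
          rw [e12] at r1
          linear_combination r1 - dg G q * r0
        rcases mul_eq_zero.1 h1 with h2 | h2 <;> linarith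
      rcases eq_or_ne (dg G r) (dg G q + 1) with hd | hd
      · have h01 : ∀ x, dg G x - dg G q = 0 ∨ dg G x - dg G q = 1 := by
          intro x
          rcases degG x with h1 | h1 | h1
          · left; rw [h1, e12]; ring
          · left; rw [h1]; ring
          · right; rw [h1, hd]; ring
        have h3 := Trel _ h01
        rcases eq_or_ne (T G (dg G q) p) (T G (dg G q) q) with ht | ht
        · exfalso
          have hgood : Good (dg G q) (T G (dg G q) q) (T G (dg G q) r - T G (dg G q) q)
              (∑ x, (dg G x - dg G q)) G := by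
            refine ⟨h01, fun x => ?_, rfl⟩
            have e0 : ∑ y, a G x y * (dg G y - dg G q) = T G (dg G q) x := rfl
            rw [e0]
            rcases hcov x with h1 | h1 | h1
            · rw [T_eq hn hSG h01 h01 h1, dG _ _ h1, e12, ht]; ring
            · rw [T_eq hn hSG h01 h01 h1, dG _ _ h1]; ring
            · rw [T_eq hn hSG h01 h01 h1, dG _ _ h1, hd]; ring
          exact hng ⟨_, _, _, _, hgood⟩
        · have h4 : (x1 - y1) * (T G (dg G q) p - T G (dg G q) q) = 0 := by
            linear_combination h3 - T G (dg G q) q * r0 - (T G (dg G q) r - T G (dg G q) q) * z3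
          have h5 : x1 = y1 := by
            rcases mul_eq_zero.1 h4 with h5 | h5
            · linarith
            · exact absurd (by linarith) ht
          exact ⟨h5, by linarith, z3⟩
      · exfalso
        apply hGH
        refine recon h fun x y => ?_
        have h1 : dg G x = dg G q ∨ dg G x = dg G r := by
          rcases degG x with h | h | h
          · left; rw [h, e12]
          · left; exact h
          · right; exact h
        have h2 : dg H y = dg G q ∨ dg H y = dg G r := by
          rcases degH y with h | h | h
          · left; rw [h, e12]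
          · left; exact h
          · right; exact h
        rcases h1 with h1 | h1 <;> rcases h2 with h2 | h2 <;> rw [h1, h2] <;>
          constructor <;> intro h3 <;> first | linarith | exact hd h3
  · rcases hqr.eq_or_lt with e23 | l23
    · -- two degrees, the higher one has two cards
      have z1 : x1 = y1 := by
        have h1 : (x1 - y1) * (dg G q - dg G p) = 0 := by
          rw [← e23] at r1
          linear_combination dg G q * r0 - r1
        rcases mul_eq_zero.1 h1 with h2 | h2 <;> linarith
      rcases eq_or_ne (dg G q) (dg G p + 1) with hd | hd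
      · have h01 : ∀ x, dg G x - dg G p = 0 ∨ dg G x - dg G p = 1 := by
          intro x
          rcases degG x with h1 | h1 | h1
          · left; rw [h1]; ring
          · right; rw [h1, hd]; ring
          · right; rw [h1, ← e23, hd]; ring
        have h3 := Trel _ h01
        rcases eq_or_ne (T G (dg G p) q) (T G (dg G p) r) with ht | ht
        · exfalso
          have hgood : Good (dg G p) (T G (dg G p) p) (T G (dg G p) q - T G (dg G p) p)
              (∑ x, (dg G x - dg G p)) G := by
            refine ⟨h01, fun x => ?_, rfl⟩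
            have e0 : ∑ y, a G x y * (dg G y - dg G p) = T G (dg G p) x := rfl
            rw [e0]
            rcases hcov x with h1 | h1 | h1
            · rw [T_eq hn hSG h01 h01 h1, dG _ _ h1]; ring
            · rw [T_eq hn hSG h01 h01 h1, dG _ _ h1, hd]; ring
            · rw [T_eq hn hSG h01 h01 h1, dG _ _ h1, ← e23, hd, ht]; ring
          exact hng ⟨_, _, _, _, hgood⟩
        · have h4 : (x3 - y3) * (T G (dg G p) r - T G (dg G p) q) = 0 := by
            linear_combination h3 - T G (dg G p) q * r0 - (T G (dg G p) p - T G (dg G p) q) * z1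
          have h5 : x3 = y3 := by
            rcases mul_eq_zero.1 h4 with h5 | h5
            · linarith
            · exact absurd (by linarith) ht
          exact ⟨z1, by linarith, h5⟩
      · exfalso
        apply hGH
        refine recon h fun x y => ?_
        have h1 : dg G x = dg G p ∨ dg G x = dg G q := by
          rcases degG x with h | h | h
          · left; exact h
          · right; exact h
          · right; rw [h, e23]
        have h2 : dg H y = dg G p ∨ dg H y = dg G q := by
          rcases degH y with h | h | h
          · left; exact h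
          · right; exact h
          · right; rw [h, e23]
        rcases h1 with h1 | h1 <;> rcases h2 with h2 | h2 <;> rw [h1, h2] <;>
          constructor <;> intro h3 <;> first | linarith | exact hd h3
    · -- three different degrees
      have hpr : dg G p < dg G r := l12.trans l23
      have cG1 : x1 = cn fun v => dg G v = dg G p := by
        rw [hx1]; congr 1; funext v
        refine propext ⟨fun hc => dG _ _ hc, fun hc => ?_⟩
        rcases hcov v with h1 | h1 | h1
        · exact h1
        · have := dG _ _ h1; linarith
        · have := dG _ _ h1; linarith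
      have cH1 : y1 = cn fun v => dg H v = dg G p := by
        rw [hy1]; congr 1; funext v
        refine propext ⟨fun hc => dH _ _ hc, fun hc => ?_⟩
        rcases hcov' v with h1 | h1 | h1
        · exact h1
        · have := dH _ _ h1; linarith
        · have := dH _ _ h1; linarith
      have rG : ∀ v, dg G v = dg G r → CI G v G r := by
        intro v hv
        rcases hcov v with h1 | h1 | h1
        · have := dG _ _ h1; linarith
        · have := dG _ _ h1; linarith
        · exact h1
      have rH : ∀ v, dg H v = dg G r → CI H v G r := by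
        intro v hv
        rcases hcov' v with h1 | h1 | h1
        · have := dH _ _ h1; linarith
        · have := dH _ _ h1; linarith
        · exact h1
      have pG : ∀ v, dg G v = dg G p → CI G v G p := by
        intro v hv
        rcases hcov v with h1 | h1 | h1
        · exact h1
        · have := dG _ _ h1; linarith
        · have := dG _ _ h1; linarith
      have pH : ∀ v, dg H v = dg G p → CI H v G p := by
        intro v hv
        rcases hcov' v with h1 | h1 | h1
        · exact h1
        · have := dH _ _ h1; linarith
        · have := dH _ _ h1; linarith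
      have cG3 : x3 = cn fun v => dg G v = dg G r := by
        rw [hx3]; congr 1; funext v
        refine propext ⟨fun hc => dG _ _ (((hcov v).resolve_left hc.1).resolve_left hc.2),
          fun hc => ⟨fun h1 => ?_, fun h1 => ?_⟩⟩
        · have := dG _ _ h1; linarith
        · have := dG _ _ h1; linarith
      have cH3 : y3 = cn fun v => dg H v = dg G r := by
        rw [hy3]; congr 1; funext v
        refine propext ⟨fun hc => dH _ _ (((hcov' v).resolve_left hc.1).resolve_left hc.2),
          fun hc => ⟨fun h1 => ?_, fun h1 => ?_⟩⟩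
        · have := dH _ _ h1; linarith
        · have := dH _ _ h1; linarith
      have topG : ∀ x, dg G x ≤ dg G r := fun x => by rcases degG x with h | h | h <;> linarith
      have topH : ∀ x, dg H x ≤ dg G r := fun x => by rcases degH x with h | h | h <;> linarith
      have botG : ∀ x, dg G p ≤ dg G x := fun x => by rcases degG x with h | h | h <;> linarith
      have botH : ∀ x, dg G p ≤ dg H x := fun x => by rcases degH x with h | h | h <;> linarith
      -- neighbours of the largest degree of a vertex of the smallest degree
      have aG : ∀ v, dg G v = dg G p → nd G v (dg G r) = nd G p (dg G r) := by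
        intro v hv
        have e1 := CS_top G v (dg G r) topG (by rw [hv]; exact hpr.ne)
        have e2 := CS_top G p (dg G r) topG hpr.ne
        rw [(pG v hv).cs] at e1
        linarith
      have aH : ∀ v, dg H v = dg G p → nd H v (dg G r) = nd G p (dg G r) + y3 - x3 := by
        intro v hv
        have e1 := CS_top H v (dg G r) topH (by rw [hv]; exact hpr.ne)
        have e2 := CS_top G p (dg G r) topG hpr.ne
        rw [(pH v hv).cs] at e1
        rw [← cH3] at e1
        rw [← cG3] at e2
        linarith
      have sG : ∀ v, dg G v = dg G r → nd G v (dg G p) = nd G r (dg G p) := by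
        intro v hv
        have e1 := CS_bot G v (dg G p) botG (by rw [hv]; intro h1; linarith)
        have e2 := CS_bot G r (dg G p) botG (by intro h1; linarith)
        rw [(rG v hv).cs] at e1
        linarith
      have sH : ∀ v, dg H v = dg G r → nd H v (dg G p) = nd G r (dg G p) := by
        intro v hv
        have e1 := CS_bot H v (dg G p) botH (by rw [hv]; intro h1; linarith)
        have e2 := CS_bot G r (dg G p) botG (by intro h1; linarith)
        rw [(rH v hv).cs] at e1
        linarith
      have m1 := nd_double G (dg G p) (dg G r) _ _ aG sG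
      have m2 := nd_double H (dg G p) (dg G r) _ _ aH sH
      rw [← cG1, ← cG3] at m1
      rw [← cH1, ← cH3] at m2
      have s1 : nd G r (dg G p) ≤ x1 := by rw [cG1]; exact nd_le G r (dg G p)
      have s2 : nd G r (dg G p) ≤ y1 := by
        obtain ⟨w, hw⟩ := h.1 r
        rw [← sH w (dH w r hw.symm), cH1]
        exact nd_le H w (dg G p)
      have n1 : 0 ≤ nd G p (dg G r) := nd_nonneg _ _ _
      have n2 : 0 ≤ nd G p (dg G r) + y3 - x3 := by
        obtain ⟨w, hw⟩ := h.1 p
        rw [← aH w (dH w p hw.symm)]
        exact nd_nonneg _ _ _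
      have z3 : x3 = y3 := by
        refine three_arith (p := dg G q - dg G p) (r := dg G r - dg G q) (by linarith)
          (by linarith) ?_ m1 m2 n1 n2 s1 s2
        linear_combination dg G q * r0 - r1
      have z1 : x1 = y1 := by
        have h1 : (x1 - y1) * (dg G q - dg G p) = 0 := by
          linear_combination dg G q * r0 - r1 + (dg G r - dg G q) * z3
        rcases mul_eq_zero.1 h1 with h2 | h2 <;> linarith
      exact ⟨z1, by linarith, z3⟩

/-- **at most three cards** -/
theorem three [Nonempty V] (hn : 4 ≤ Fintype.card V) (h : SC G H) (p q r : V)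
    (hcov : ∀ v, CI G v G p ∨ CI G v G q ∨ CI G v G r) (z : V) :
    Set.ncard {u | CI G u G z} = Set.ncard {u | CI H u G z} := by
  rcases le_total (dg G p) (dg G q) with h1 | h1 <;>
  rcases le_total (dg G q) (dg G r) with h2 | h2 <;>
  rcases le_total (dg G p) (dg G r) with h3 | h3
  · exact three_sorted hn h p q r hcov h1 h2 z
  · exact three_sorted hn h p q r hcov h1 h2 z
  · exact three_sorted hn h p r q (fun v => by rcases hcov v with h | h | h <;> simp [h]) h3 h2 z
  · exact three_sorted hn h r p q (fun v => by rcases hcov v with h | h | h <;> simp [h]) h3 h1 z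
  · exact three_sorted hn h q p r (fun v => by rcases hcov v with h | h | h <;> simp [h]) h1 h3 z
  · exact three_sorted hn h q r p (fun v => by rcases hcov v with h | h | h <;> simp [h]) h2 h3 z
  · exact three_sorted hn h r q p (fun v => by rcases hcov v with h | h | h <;> simp [h]) h2 h1 z
  · exact three_sorted hn h r q p (fun v => by rcases hcov v with h | h | h <;> simp [h]) h2 h1 z

end Pool.Agent.Lib.Pecede9
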