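import Pool.Agent.Lib.Pecede9.Fam

/-!
# The switching vector is unique
-/

set_option autoImplicit false
set_option linter.unusedSectionVars false

open Finset

namespace Pool.Agent.Lib.Pecede9

variable {V : Type} [Fintype V] [DecidableEq V]
variable {l : ℤ} {A : V → V → ℤ} {u : V → ℤ} {v w x z : V} {g g' h gz : V → ℤ} {b b' bz : ℤ}
variable {S : Set ((V → V → ℤ) × (V → ℤ))}

/-- values on low vertices -/
theorem SW.low (s : SW l A u v g b) (hx : u x = 0) : g x = 0 ∨ g x = -1 := by
  rcases s.tri x with h | ⟨_, h, _⟩ | ⟨h, _, _⟩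
  · exact Or.inl h
  · rw [hx] at h; norm_num at h
  · exact Or.inr h

/-- values on high vertices -/
theorem SW.high (s : SW l A u v g b) (hx : u x = 1) : g x = 0 ∨ g x = 1 := by
  rcases s.tri x with h | ⟨h, _, _⟩ | ⟨_, h, _⟩
  · exact Or.inl h
  · exact Or.inr h
  · rw [hx] at h; norm_num at h

theorem SW.u_of_pos (s : SW l A u v g b) (hx : g x = 1) : u x = 1 := by
  rcases s.tri x with h | ⟨_, h, _⟩ | ⟨h, _, _⟩
  · rw [hx] at h; norm_num at h
  · exact h
  · rw [hx] at h; norm_num at h

theorem SW.u_of_neg (s : SW l A u v g b) (hx : g x = -1) : u x = 0 := by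
  rcases s.tri x with h | ⟨h, _, _⟩ | ⟨_, h, _⟩
  · rw [hx] at h; norm_num at h
  · rw [hx] at h; norm_num at h
  · exact h

theorem SW.adj_of_pos (s : SW l A u v g b) (hx : g x = 1) : A v x = 1 := by
  rcases s.tri x with h | ⟨_, _, h⟩ | ⟨h, _, _⟩
  · rw [hx] at h; norm_num at h
  · exact h
  · rw [hx] at h; norm_num at h

theorem SW.adj_of_neg (s : SW l A u v g b) (hx : g x = -1) : A v x = 0 := by
  rcases s.tri x with h | ⟨h, _, _⟩ | ⟨_, _, h⟩
  · rw [hx] at h; norm_num at h
  · rw [hx] at h; norm_num at h
  · exact h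

/-- the sum over the low vertices -/
theorem SW.gl (s : SW l A u v g b) : ∑ x, g x * (1 - u x) = -b := by
  have : ∑ x, g x * (1 - u x) = ∑ x, g x - ∑ x, g x * u x := by
    rw [← sum_sub_distrib]; exact sum_congr rfl fun x _ => by ring
  rw [this, s.gu, s.sum0]; ring

theorem SW.exists_pos (s : SW l A u v g b) : ∃ x, g x = 1 := by
  by_contra hc
  push Not at hc
  have h1 : ∑ x, g x * u x ≤ 0 := by
    apply sum_nonpos
    intro x _
    rcases s.tri x with h | ⟨h, _, _⟩ | ⟨h, h', _⟩
    · rw [h]; simp
    · exact absurd h (hc x)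
    · rw [h']; simp
  rw [s.gu] at h1
  exact absurd s.bpos (not_lt.2 h1)

theorem SW.exists_neg (s : SW l A u v g b) : ∃ x, g x = -1 := by
  by_contra hc
  push Not at hc
  have h1 : 0 ≤ ∑ x, g x * (1 - u x) := by
    apply sum_nonneg
    intro x _
    rcases s.tri x with h | ⟨h, h', _⟩ | ⟨h, _, _⟩
    · rw [h]; simp
    · rw [h, h']; norm_num
    · exact absurd h (hc x)
  rw [s.gl] at h1
  have := s.bpos
  linarith

/-- switching at a low vertex `v`, then at a vertex `x` of the new low part -/
theorem Fam.lowLow (F : Fam l S) (hp : (A, u) ∈ S) (hv : u v = 0) (hz : u z = 0)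
    (s : SW l A u v g b) (hs : (sw v g A, u - g) ∈ S) (sz : SW l A u z gz bz)
    (hgz : g z = 0) (hx : g x = 1) :
    dot g gz - b * gz x = 0 ∨ dot g gz - b * gz x = bz := by
  have hA := F.symm _ hp
  obtain ⟨e, c, t0, -⟩ := F.ex _ hs x
  have t : SW l (sw v g A) (u - g) x e c := t0
  have hvx : (u - g) v = 0 := by simp [hv, s.gv]
  have hxx : (u - g) x = 0 := by simp [s.u_of_pos hx, hx]
  have hzz : (u - g) z = 0 := by simp [hz, hgz]
  have hA' := F.symm _ hs
  have c1 := s.back.cross t hA'
  rw [hvx, hxx] at c1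
  simp only [Pi.neg_apply, hx] at c1
  have hev : e v = -1 := by
    rcases t.low hvx with h | h
    · rw [h] at c1
      have := t.bpos
      linarith
    · exact h
  have hcb : c = b := by rw [hev] at c1; linarith
  have hgzv : gz v = 0 := by
    have := s.cross sz hA
    rw [hv, hz, hgz] at this
    have h2 : b * gz v = 0 := by linarith
    exact (mul_eq_zero.1 h2).resolve_left s.bpos.ne'
  -- the equation of `e` in the original graph
  have e1 : ∀ y, op A e y = l * e y + (if y = x then b else 0) + (if y = v then dot g e else 0)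
      - g y := by
    intro y
    have h1 := op_sw v g A e y
    rw [t.eig, hxx, hev, hcb] at h1
    linarith
  have e2 : dot gz (op A e) = l * dot gz e + b * gz x - dot g gz := by
    rw [dot_comm g gz]
    unfold dot
    simp only [e1, mul_add, mul_sub, sum_add_distrib, sum_sub_distrib, mul_ite, mul_zero,
      sum_ite_eq', mem_univ, if_true, hgzv, zero_mul, add_zero, mul_sum]
    congr 1
    congr 1
    · exact sum_congr rfl fun y _ => by ring
    · ring
  have e3 : dot e (op A gz) = l * dot gz e + bz * e z := by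
    unfold dot
    simp only [sz.eig, hz, mul_add, sum_add_distrib, mul_ite, mul_zero,
      sum_ite_eq', mem_univ, if_true, mul_sum]
    congr 1
    · exact sum_congr rfl fun y _ => by ring
    · ring
  have e4 : dot gz (op A e) = dot e (op A gz) := by rw [dot_op A hA, dot_comm]
  rcases t.low hzz with h | h
  · left; rw [h] at e3; linarith
  · right; rw [h] at e3; linarith

/-- switching at a high vertex `v`, then at a vertex `z` of the new high part -/
theorem Fam.highHigh (F : Fam l S) (hv : u v = 1)
    (s : SW l A u v g b) (hs : (sw v g A, u - g) ∈ S) (hz : g z = -1) :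
    ∃ e : V → ℤ, e z = 0 ∧ (∀ x, u x - g x = 1 → (e x = 0 ∨ e x = 1)) ∧
      ∀ f : V → ℤ, dot f (op A e) = (l - 1) * dot f e + b * f z + dot g e * f v + dot f g := by
  obtain ⟨e, c, t0, -⟩ := F.ex _ hs z
  have t : SW l (sw v g A) (u - g) z e c := t0
  have hvx : (u - g) v = 1 := by simp [hv, s.gv]
  have hzz : (u - g) z = 1 := by simp [s.u_of_neg hz, hz]
  have hA' := F.symm _ hs
  have c1 := s.back.cross t hA'
  rw [hvx, hzz] at c1
  simp only [Pi.neg_apply, hz] at c1
  have hev : e v = 1 := by
    rcases t.high hvx with h | h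
    · rw [h] at c1
      have := t.bpos
      linarith
    · exact h
  have hcb : c = b := by rw [hev] at c1; linarith
  have e1 : ∀ y, op A e y = (l - 1) * e y + (if y = z then b else 0)
      + (if y = v then dot g e else 0) + g y := by
    intro y
    have h1 := op_sw v g A e y
    rw [t.eig, hzz, hev, hcb] at h1
    linarith
  refine ⟨e, t.gv, fun x hx => t.high hx, fun f => ?_⟩
  unfold dot
  simp only [e1, mul_add, sum_add_distrib, mul_ite, mul_zero,
    sum_ite_eq', mem_univ, if_true, mul_sum]
  congr 1
  congr 1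
  · congr 1
    · exact sum_congr rfl fun y _ => by ring
    · ring
  · rw [dot]; ring

/-- pairing a switching vector with a general vector -/
theorem SW.dot_eig (s : SW l A u v g b) (f : V → ℤ) :
    dot f (op A g) = (l - u v) * dot g f + b * f v := by
  unfold dot
  simp only [s.eig, mul_add, sum_add_distrib, mul_ite, mul_zero, sum_ite_eq', mem_univ, if_true,
    mul_sum]
  congr 1
  · exact sum_congr rfl fun x _ => by ring
  · ring

/-- if `g` and `g'` have no common `+1` and the scalar product is as large as possible, then the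
support of the negative part of `g` is contained in that of `g'` -/
theorem SW.neg_sub (s : SW l A u v g b) (s' : SW l A u w g' b') (hu : ∀ x, u x = 0 ∨ u x = 1)
    (hd : dot g g' = b) (hn : ∀ x, g x = 1 → g' x ≠ 1) (x : V) (hx : g x = -1) : g' x = -1 := by
  have h0 : ∑ y, (-(g y * (1 - u y)) - g y * g' y) = 0 := by
    have := s.gl
    unfold dot at hd
    rw [sum_sub_distrib, sum_neg_distrib, this, hd]; ring
  have h1 : ∀ y ∈ univ, 0 ≤ -(g y * (1 - u y)) - g y * g' y := by
    intro y _
    rcases hu y with hy | hy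
    · rcases s.low hy with h2 | h2 <;> rcases s'.low hy with h3 | h3 <;> rw [h2, h3, hy] <;>
        norm_num
    · rcases s.high hy with h2 | h2
      · rw [h2]; simp
      · rcases s'.high hy with h3 | h3
        · rw [h3, hy]; simp
        · exact absurd h3 (hn y h2)
  have h2 := (sum_eq_zero_iff_of_nonneg h1).1 h0 x (mem_univ _)
  rw [hx, s.u_of_neg hx] at h2
  linarith

theorem Fam.uniqLow (F : Fam l S) (hp : (A, u) ∈ S) (hv : u v = 0)
    (s : SW l A u v g b) (hs : (sw v g A, u - g) ∈ S)
    (s' : SW l A u v g' b') : g = g' := by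
  by_contra hne
  have hA := F.symm _ hp
  have hA1 : ∀ x y, A x y = A y x := hA
  have hu : ∀ x, u x = 0 ∨ u x = 1 := F.u01 _ hp
  -- Step (i)
  have low : ∀ x, u x = 0 → b' * g x - b * g' x = 0 := by
    intro x hx
    refine F.ker_low (h := fun x => b' * g x - b * g' x) hp ?_ hx
    intro y
    have e1 : op A (fun x => b' * g x - b * g' x) y = b' * op A g y - b * op A g' y := by
      unfold op
      rw [mul_sum, mul_sum, ← sum_sub_distrib]
      exact sum_congr rfl fun y _ => by ring
    rw [e1, s.eig, s'.eig, hv]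
    split_ifs <;> ring
  obtain ⟨x0, hx0⟩ := s.exists_neg
  have hbb : b' = b := by
    have h1 := low x0 (s.u_of_neg hx0)
    rw [hx0] at h1
    rcases s'.low (s.u_of_neg hx0) with h2 | h2
    · rw [h2] at h1
      have := s'.bpos
      linarith
    · rw [h2] at h1; linarith
  subst hbb
  have hlow : ∀ x, u x = 0 → g x = g' x := by
    intro x hx
    have h1 := low x hx
    have h2 : b' * (g x - g' x) = 0 := by linarith
    have := (mul_eq_zero.1 h2).resolve_left s.bpos.ne'
    linarith
  set h : V → ℤ := fun x => g x - g' x with hh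
  have hk : ∀ x, op A h x = l * h x := by
    intro y
    have e1 : op A h y = op A g y - op A g' y := by
      unfold op
      rw [← sum_sub_distrib]
      exact sum_congr rfl fun y _ => by simp only [hh]; ring
    rw [e1, s.eig, s'.eig, hv]
    simp only [hh]
    ring
  have hval : ∀ x, h x = 1 → g x = 1 := by
    intro x hx
    simp only [hh] at hx
    rcases hu x with h1 | h1
    · rw [hlow x h1] at hx; simp at hx
    · rcases s.high h1 with h2 | h2
      · rw [h2] at hx
        rcases s'.high h1 with h3 | h3 <;> rw [h3] at hx <;> norm_num at hx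
      · exact h2
  have hex : ∃ w0, h w0 = 1 := by
    by_contra hc
    push Not at hc
    apply hne
    have h1 : ∀ x ∈ univ, 0 ≤ - h x := by
      intro x _
      have h2 := hc x
      simp only [hh] at h2 ⊢
      rcases hu x with h1 | h1
      · rw [hlow x h1]; simp
      · rcases s.high h1 with h3 | h3 <;> rcases s'.high h1 with h4 | h4
        · rw [h3, h4]; norm_num
        · rw [h3, h4]; norm_num
        · rw [h3, h4] at h2; norm_num at h2
        · rw [h3, h4]; norm_num
    have h0 : ∑ x, - h x = 0 := by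
      simp only [hh, neg_sub, sum_sub_distrib, s.sum0, s'.sum0, sub_zero]
    funext x
    have h2 := (sum_eq_zero_iff_of_nonneg h1).1 h0 x (mem_univ _)
    simp only [hh] at h2
    linarith
  obtain ⟨w0, hw0⟩ := hex
  have gw0 : g w0 = 1 := hval _ hw0
  have uw0 : u w0 = 1 := s.u_of_pos gw0
  have P1 : ∀ w, g w = 1 → h w = 1 := by
    intro w hw
    have h1 := F.ker_P hp hk hv s hs hw
    have h2 := F.ker_P hp hk hv s hs gw0
    rw [hw0] at h2
    have h3 : b' * (h w - 1) = 0 := by linarith
    have := (mul_eq_zero.1 h3).resolve_left s.bpos.ne'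
    linarith
  -- Step (ii)
  obtain ⟨k, c, t0, ht0⟩ := F.ex _ hp w0
  have t : SW l A u w0 k c := t0
  have ht : (sw w0 k A, u - k) ∈ S := ht0
  have R1 : ∀ w, k w = 1 → h w = 1 := by
    intro w hw
    rw [F.ker_R hp hk uw0 t ht hw, hw0]
  -- Step (iii)
  obtain ⟨z, hz⟩ := t.exists_neg
  have uz : u z = 0 := t.u_of_neg hz
  obtain ⟨gz, bz, sz0, hsz0⟩ := F.ex _ hp z
  have sz : SW l A u z gz bz := sz0
  have hsz : (sw z gz A, u - gz) ∈ S := hsz0
  have gzw0 : gz w0 = 0 := by
    rcases sz.high uw0 with h1 | h1
    · exact h1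
    · have h2 := sz.adj_of_pos h1
      rw [hA1, t.adj_of_neg hz] at h2
      norm_num at h2
  have D1 : dot gz k = bz := by
    have := sz.cross t hA
    rw [uw0, uz, gzw0, hz] at this
    linarith
  have C3 : ∀ w, gz w = 1 → h w ≠ 1 := by
    intro w hw hhw
    have gw : g w = 1 := hval _ hhw
    have sub : ∀ w', gz w' = 1 → g w' = 1 := by
      intro w' hw'
      have h1 := F.ker_P hp hk uz sz hsz hw'
      have h2 := F.ker_P hp hk uz sz hsz hw
      rw [hhw] at h2
      have h3 : bz * (h w' - 1) = 0 := by linarith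
      have := (mul_eq_zero.1 h3).resolve_left sz.bpos.ne'
      exact hval _ (by linarith)
    have pos : 0 < dot g gz := by
      have h1 : ∀ x ∈ univ, 0 ≤ g x * gz x := by
        intro x _
        rcases hu x with hx | hx
        · rcases s.low hx with h3 | h3 <;> rcases sz.low hx with h4 | h4 <;> rw [h3, h4] <;>
            norm_num
        · rcases s.high hx with h3 | h3 <;> rcases sz.high hx with h4 | h4 <;> rw [h3, h4] <;>
            norm_num
      have h2 := single_le_sum h1 (mem_univ w)
      rw [gw, hw] at h2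
      unfold dot
      linarith
    have bzb : bz = b' := by
      rcases s.low uz with h1 | h1
      · have h2 := F.lowLow hp hv uz s hs sz h1 gw0
        have h3 := F.lowLow hp hv uz s hs sz h1 gw
        rw [gzw0] at h2
        rw [hw] at h3
        have h4 : dot g gz = bz := by
          rcases h2 with h2 | h2
          · linarith
          · linarith
        rcases h3 with h3 | h3
        · linarith
        · have := s.bpos
          linarith
      · have h2 := s.cross sz hA
        rw [uz, hv, h1] at h2
        rcases sz.low hv with h3 | h3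
        · rw [h3] at h2
          have := sz.bpos
          linarith
        · rw [h3] at h2; linarith
    have h5 : ∑ x, (g x - gz x) * u x = 0 := by
      simp only [sub_mul, sum_sub_distrib, s.gu, sz.gu, bzb, sub_self]
    have h6 : ∀ x ∈ univ, 0 ≤ (g x - gz x) * u x := by
      intro x _
      rcases hu x with hx | hx
      · rw [hx]; simp
      · rcases sz.high hx with h7 | h7
        · rcases s.high hx with h8 | h8 <;> rw [h7, h8, hx] <;> norm_num
        · rw [h7, sub x h7]; simp
    have h7 := (sum_eq_zero_iff_of_nonneg h6).1 h5 w0 (mem_univ _)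
    rw [gw0, gzw0, uw0] at h7
    norm_num at h7
  have C5 : ∀ x, gz x = 1 → k x ≠ 1 := fun x h1 h2 => C3 x h1 (R1 x h2)
  have C4 := sz.neg_sub t hu D1 C5
  -- Step (iv)
  obtain ⟨e, ez, ev, ef⟩ := F.highHigh uw0 t ht hz
  have E1 : dot gz e = bz := by
    have h1 := ef gz
    have h2 := sz.dot_eig e
    rw [sz.gv, gzw0, D1] at h1
    rw [ez, uz] at h2
    have h3 : dot gz (op A e) = dot e (op A gz) := by rw [dot_op A hA, dot_comm]
    linarith
  have kz : ∀ x, gz x = 1 → k x = 0 := by
    intro x hx
    rcases t.high (sz.u_of_pos hx) with h1 | h1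
    · exact h1
    · exact absurd h1 (C5 x hx)
  have E2 : ∀ x, gz x = 1 → e x = 1 := by
    intro x hx
    have h5 : ∑ x, gz x * (u x - e x) = 0 := by
      have : ∑ x, gz x * (u x - e x) = ∑ x, gz x * u x - dot gz e := by
        unfold dot
        rw [← sum_sub_distrib]
        exact sum_congr rfl fun x _ => by ring
      rw [this, sz.gu, E1, sub_self]
    have h6 : ∀ x ∈ univ, 0 ≤ gz x * (u x - e x) := by
      intro x _
      rcases sz.tri x with h1 | ⟨h1, h2, _⟩ | ⟨h1, h2, _⟩
      · rw [h1]; simp
      · rcases ev x (by rw [h2, kz x h1]; rfl) with h3 | h3 <;> rw [h1, h2, h3] <;> norm_num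
      · rcases ev x (by rw [h2, C4 x h1]; rfl) with h3 | h3 <;> rw [h1, h2, h3] <;> norm_num
    have h7 := (sum_eq_zero_iff_of_nonneg h6).1 h5 x (mem_univ _)
    rw [hx, sz.u_of_pos hx] at h7
    linarith
  obtain ⟨w, hw⟩ := sz.exists_pos
  have uw : u w = 1 := sz.u_of_pos hw
  have Azw : A z w = 1 := sz.adj_of_pos hw
  have kw : k w = 0 := kz w hw
  have ew : e w = 1 := E2 w hw
  obtain ⟨m, d, sm0, hsm0⟩ := F.ex _ hp w
  have sm : SW l A u w m d := sm0
  have hsm : (sw w m A, u - m) ∈ S := hsm0
  have mz : m z = 0 := by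
    rcases sm.low uz with h1 | h1
    · exact h1
    · have h2 := sm.adj_of_neg h1
      rw [hA1, Azw] at h2
      norm_num at h2
  have mw0 : m w0 = 0 := by
    have h1 := t.cross sm hA
    rw [uw, uw0, kw] at h1
    have h2 : c * m w0 = 0 := by linarith
    exact (mul_eq_zero.1 h2).resolve_left t.bpos.ne'
  have M1 : dot m k = d := by
    have h1 := ef m
    have h2 := sm.dot_eig e
    rw [mz, mw0] at h1
    rw [ew, uw] at h2
    have h3 : dot m (op A e) = dot e (op A m) := by rw [dot_op A hA, dot_comm]
    linarith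
  have M2 : ∀ x, m x = 1 → k x ≠ 1 := by
    intro x h1 h2
    have h3 := R1 x h2
    rw [F.ker_R hp hk uw sm hsm h1] at h3
    exact C3 w hw h3
  have M3 := sm.neg_sub t hu M1 M2
  obtain ⟨z3, hz3⟩ := sm.exists_neg
  have kz3 : k z3 = -1 := M3 z3 hz3
  obtain ⟨e3, e3z, e3v, e3f⟩ := F.highHigh uw0 t ht kz3
  have hcd : d = c := by
    have h1 := e3f m
    have h2 := sm.dot_eig e3
    rw [hz3, mw0, M1] at h1
    rw [uw] at h2
    have h3 : dot m (op A e3) = dot e3 (op A m) := by rw [dot_op A hA, dot_comm]
    rcases e3v w (by rw [uw, kw]; rfl) with h4 | h4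
    · rw [h4] at h2; linarith
    · rw [h4] at h2
      have := t.bpos
      linarith
  have h5 : ∑ x, (m x - k x) * (1 - u x) = 0 := by
    simp only [sub_mul, sum_sub_distrib, sm.gl, t.gl, hcd, sub_self]
  have h6 : ∀ x ∈ univ, 0 ≤ (m x - k x) * (1 - u x) := by
    intro x _
    rcases hu x with hx | hx
    · rcases sm.low hx with h7 | h7
      · rcases t.low hx with h8 | h8 <;> rw [h7, h8, hx] <;> norm_num
      · rw [h7, M3 x h7]; simp
    · rw [hx]; simp
  have h7 := (sum_eq_zero_iff_of_nonneg h6).1 h5 z (mem_univ _)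
  rw [mz, hz, uz] at h7
  norm_num at h7

/-- complement -/
def cp (A : V → V → ℤ) : V → V → ℤ := fun x y => 1 - (if x = y then 1 else 0) - A x y

/-- complement of a pair -/
def cpp (p : (V → V → ℤ) × (V → ℤ)) : (V → V → ℤ) × (V → ℤ) := (cp p.1, 1 - p.2)

theorem cpp_cpp (p : (V → V → ℤ) × (V → ℤ)) : cpp (cpp p) = p := by
  unfold cpp cp
  ext x
  · simp
  · simp

theorem op_cp (A : V → V → ℤ) (f : V → ℤ) (x : V) (hf : ∑ y, f y = 0) :
    op (cp A) f x = - f x - op A f x := by
  unfold op cp
  simp only [sub_mul, one_mul, sum_sub_distrib, ite_mul, zero_mul, sum_ite_eq, mem_univ, if_true,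
    hf]
  ring

theorem SW.cpl (s : SW l A u v g b) : SW (-l) (cp A) (1 - u) v (-g) b where
  gv := by simp [s.gv]
  tri x := by
    have hvx : g x ≠ 0 → v ≠ x := fun h1 h2 => h1 (h2 ▸ s.gv)
    simp only [Pi.neg_apply, Pi.sub_apply, Pi.one_apply]
    rcases s.tri x with h1 | ⟨h1, h2, h3⟩ | ⟨h1, h2, h3⟩
    · left; rw [h1]; rfl
    · right; right
      have h4 := hvx (by rw [h1]; norm_num)
      unfold cp
      rw [if_neg h4, h1, h2, h3]; norm_num
    · right; left
      have h4 := hvx (by rw [h1]; norm_num)
      unfold cp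
      rw [if_neg h4, h1, h2, h3]; norm_num
  bpos := s.bpos
  gu := by
    have : ∀ x, (-g) x * (1 - u) x = - (g x * (1 - u x)) := fun x => by
      simp only [Pi.neg_apply, Pi.sub_apply, Pi.one_apply]; ring
    rw [sum_congr rfl fun x _ => this x, sum_neg_distrib, s.gl]; ring
  sum0 := by simp [s.sum0]
  eig x := by
    rw [op_cp A (-g) x (by simp [s.sum0])]
    have h1 : op A (-g) x = - op A g x := by unfold op; simp
    rw [h1, s.eig]
    simp only [Pi.neg_apply, Pi.sub_apply, Pi.one_apply]
    ring

theorem sw_cp (v : V) (g : V → ℤ) (A : V → V → ℤ) : sw v (-g) (cp A) = cp (sw v g A) := by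
  funext x y
  unfold sw cp
  simp only [Pi.neg_apply]
  split_ifs <;> ring

theorem Fam.cpl (F : Fam l S) : Fam (-l) {p | cpp p ∈ S} where
  symm p hp x y := by
    have h1 := F.symm _ hp x y
    simp only [cpp, cp] at h1
    have h2 : (x = y) = (y = x) := propext eq_comm
    simp only [h2] at h1
    linarith
  u01 p hp x := by
    have h1 := F.u01 _ hp x
    simp only [cpp, Pi.sub_apply, Pi.one_apply] at h1
    rcases h1 with h1 | h1
    · right; linarith
    · left; linarith
  ex p hp v := by
    obtain ⟨g, b, s, hs⟩ := F.ex _ hp v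
    have h1 := s.cpl
    refine ⟨-g, b, ?_, ?_⟩
    · have h2 : (cp (cpp p).1, 1 - (cpp p).2) = p := cpp_cpp p
      have h3 : cp (cpp p).1 = p.1 := congrArg Prod.fst h2
      have h4 : 1 - (cpp p).2 = p.2 := congrArg Prod.snd h2
      rw [h3, h4] at h1
      exact h1
    · simp only [Set.mem_ofPred_eq]
      have h2 : cpp (sw v (-g) p.1, p.2 - (-g)) = (sw v g (cpp p).1, (cpp p).2 - g) := by
        unfold cpp
        simp only
        rw [← sw_cp, neg_neg]
        congr 1
        funext x
        simp only [Pi.sub_apply, Pi.one_apply, Pi.neg_apply]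
        ring
      rw [h2]
      exact hs

/-- **uniqueness of the switching vector** -/
theorem Fam.uniq (F : Fam l S) (hp : (A, u) ∈ S)
    (s : SW l A u v g b) (hs : (sw v g A, u - g) ∈ S)
    (s' : SW l A u v g' b') : g = g' := by
  rcases F.u01 _ hp v with hv | hv
  · exact F.uniqLow hp hv s hs s'
  · have h1 : -g = -g' := by
      refine F.cpl.uniqLow (A := cp A) (u := 1 - u) ?_ ?_ s.cpl ?_ s'.cpl
      · simp only [Set.mem_ofPred_eq]
        exact (cpp_cpp (A, u)).symm ▸ hp
      · simp only [Pi.sub_apply, Pi.one_apply]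
        simp only at hv
        rw [hv]; rfl
      · simp only [Set.mem_ofPred_eq]
        have h2 : (sw v (-g) (cp A), 1 - u - (-g)) = cpp (sw v g A, u - g) := by
          unfold cpp
          simp only
          rw [sw_cp]
          congr 1
          funext x
          simp only [Pi.sub_apply, Pi.one_apply, Pi.neg_apply]
          ring
        rw [h2, cpp_cpp]
        exact hs
    exact neg_injective h1

end Pool.Agent.Lib.Pecede9
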